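import Pool.Agent.Lib.MP_64d474_lc.ST.Defs

/-!
# The algorithm

Numbers in the input are lists of binary digits here.  The determinant is tested at the points
`xval` with digits `d`, modulo all primes up to `pbound`.
-/

set_option autoImplicit false

namespace Pool.Agent.Lib.MP_64d474_lc.ST

/-- A pair of the input: sign and digits of the coefficient, digits of the variable index. -/
abbrev RPair : Type := (Bool × List Bool) × List Bool

/-- A symbolic matrix with numbers as lists of digits. -/
abbrev RMat : Type := List (List (List RPair))

/-- The letter of a digit. -/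
def bitS (b : Bool) : Letter := if b then .one else .zero

def codeRPair (p : RPair) : List Letter :=
  (if p.1.1 then [.minus] else []) ++ p.1.2.map bitS ++ [.comma] ++ p.2.map bitS ++ [.pair]

def codeREntry (e : List RPair) : List Letter := e.flatMap codeRPair ++ [.entry]

def codeRRow (r : List (List RPair)) : List Letter := r.flatMap codeREntry ++ [.row]

def codeR (A : RMat) : List Letter := A.flatMap codeRRow

/-- From numbers to digits. -/
def rawPair (p : ℤ × ℕ) : RPair := ((decide (p.1 < 0), p.1.natAbs.bits), p.2.bits)

def raw (A : SMat) : RMat := A.map fun r => r.map fun e => e.map rawPair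

/-- The value of a list of digits. -/
def valB (l : List Bool) : ℕ := l.foldr (fun b a => (if b then 1 else 0) + 2 * a) 0

/-- From digits to numbers. -/
def unrawPair (p : RPair) : ℤ × ℕ :=
  (if p.1.1 then -(valB p.1.2 : ℤ) else valB p.1.2, valB p.2)

def unraw (A : RMat) : SMat := A.map fun r => r.map fun e => e.map unrawPair

/-- The most significant digit is `1`. -/
def canonB (l : List Bool) : Bool := l.reverse.headD true

def canonP (p : RPair) : Bool := canonB p.1.2 && canonB p.2 && !(p.1.1 && p.1.2.isEmpty)

def canon (A : RMat) : Bool := A.all fun r => r.all fun e => e.all canonP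

def sqr (A : RMat) : Bool := A.all fun r => decide (r.length = A.length)

/-! ### The parser -/

/-- The state of the parser: the finished rows, the finished entries of the current row, the
finished pairs of the current entry (all in reverse order), the phase (`true` after the comma),
the sign, the digits of the coefficient and of the index read so far (in reverse order). -/
abbrev PS : Type :=
  RMat × List (List RPair) × List RPair × Bool × Bool × List Bool × List Bool

def pbit (b : Bool) (s : PS) : PS :=
  (s.1, s.2.1, s.2.2.1, s.2.2.2.1, s.2.2.2.2.1,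
    (bif s.2.2.2.1 then s.2.2.2.2.2.1 else b :: s.2.2.2.2.2.1),
    (bif s.2.2.2.1 then b :: s.2.2.2.2.2.2 else s.2.2.2.2.2.2))

def pstep (s : PS) : Letter → PS
  | .zero => pbit false s
  | .one => pbit true s
  | .minus => (s.1, s.2.1, s.2.2.1, s.2.2.2.1, true, s.2.2.2.2.2)
  | .comma => (s.1, s.2.1, s.2.2.1, true, s.2.2.2.2)
  | .pair => (s.1, s.2.1,
      ((s.2.2.2.2.1, s.2.2.2.2.2.1.reverse), s.2.2.2.2.2.2.reverse) :: s.2.2.1,
      false, false, [], [])
  | .entry => (s.1, s.2.2.1.reverse :: s.2.1, [], s.2.2.2)
  | .row => (s.2.1.reverse :: s.1, [], s.2.2)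

def parse (w : List Letter) : RMat :=
  (w.foldl pstep ([], [], [], false, false, [], [])).1.reverse

/-! ### The points -/

section points

variable {β : Type} [DecidableEq β]

/-- the number of occurrences of `v` -/
def cnt (V : List β) (v : β) : ℕ := (V.filter fun u => decide (u = v)).length

/-- the number of members of `V` whose first occurrence is before that of `v` -/
def offs (V : List β) (v : β) : ℕ :=
  (V.filter fun u => decide (V.idxOf u < V.idxOf v)).length

/-- the number of sources -/
def srcs (R : ℕ) : ℕ := 4 * (R * R) + R

/-- the number of blocks -/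
def blks (s R : ℕ) : ℕ := s / R + 1

/-- the number of digits -/
def digs (s R : ℕ) : ℕ := srcs R + 2 * blks s R

/-- the largest digit -/
def dmax (s R : ℕ) : ℕ := srcs R * s

/-- The value of the variable `v` for the digits `d`; `V` is the list of the variables of all
pairs. -/
def xval (V : List β) (R : ℕ) (d : List ℕ) (v : β) : ℕ :=
  if cnt V v ≤ R then
    (d.take (srcs R)).foldr
      (fun z a => (z + a) * (2 ^ (offs V v % R) * d.getD (srcs R + offs V v / R) 0)) 0
  else d.getD (srcs R + blks V.length R + offs V v / R) 0

/-- `2 ^ k * y` modulo `p` -/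
def dbl (p k y : ℕ) : ℕ := (fun x => 2 * x % p)^[k] (y % p)

/-- The value of the variable `v` modulo `p`. -/
def xmod (p : ℕ) (V : List β) (R : ℕ) (d : List ℕ) (v : β) : ℕ :=
  if cnt V v ≤ R then
    (d.take (srcs R)).foldr
      (fun z a => (z + a) * dbl p (offs V v % R) (d.getD (srcs R + offs V v / R) 0) % p) 0
  else d.getD (srcs R + blks V.length R + offs V v / R) 0 % p

end points

/-- the variables of all pairs -/
def vars (A : RMat) : List (List Bool) := A.flatMap fun r => r.flatMap fun e => e.map Prod.snd

/-- the value of a list of digits modulo `p` -/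
def valmod (p : ℕ) (l : List Bool) : ℕ :=
  l.foldr (fun b a => ((if b then 1 else 0) + 2 * a) % p) 0

/-- a coefficient modulo `p` -/
def coefmod (p : ℕ) (q : Bool × List Bool) : ℕ :=
  if q.1 then (p - valmod p q.2) % p else valmod p q.2

/-- an entry modulo `p` -/
def entmod (p : ℕ) (V : List (List Bool)) (R : ℕ) (d : List ℕ) (e : List RPair) : ℕ :=
  (e.map fun q => coefmod p q.1 * xmod p V R d q.2).sum % p

/-- the matrix modulo `p` -/
def matmod (p : ℕ) (R : ℕ) (d : List ℕ) (A : RMat) : List (List ℕ) :=
  A.map fun r => r.map (entmod p (vars A) R d)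

/-! ### Elimination -/

def headNZ (p : ℕ) (r : List ℕ) : Bool := !decide (r.headD 0 % p = 0)

/-- `a₀ r - r₀ a` without the first entry -/
def comb (p : ℕ) (a r : List ℕ) : List ℕ :=
  List.zipWith (fun x y => (a.headD 0 * y + (p - r.headD 0 % p) * x) % p) a.tail r.tail

def estep (p : ℕ) (s : Bool × List (List ℕ)) : Bool × List (List ℕ) :=
  if (s.2.filter (headNZ p)).isEmpty then (false, s.2) else
    (s.1, ((s.2.filter (headNZ p)).tail ++ s.2.filter fun r => !headNZ p r).map
      (comb p ((s.2.filter (headNZ p)).headD [])))

/-- Elimination modulo `p` finds a pivot in every column. -/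
def elimOK (p : ℕ) (M : List (List ℕ)) : Bool := ((estep p)^[M.length] (true, M)).1

/-! ### The algorithm -/

def isPrime (p : ℕ) : Bool :=
  decide (2 ≤ p) && (List.range p).all fun d => decide (d < 2) || !decide (p % d = 0)

/-- all lists of length `T` with members at most `D` -/
def vecs (D T : ℕ) : List (List ℕ) :=
  (fun V : List (List ℕ) => V.flatMap fun l => (List.range (D + 1)).map fun x => x :: l)^[T] [[]]

/-- the least `R ≥ 1` with `s ≤ R ^ 3` -/
def sideC (s : ℕ) : ℕ :=
  ((List.range (s + 2)).filter fun R => decide (1 ≤ R) && decide (s ≤ R * (R * R))).headD 1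

/-- the determinants of the tests have absolute value less than `2 ^ kbound L` -/
def kbound (L : ℕ) : ℕ := 64 * ((L + 2) * ((L + 2) * ((L + 2) * (L + 2))))

/-- the bound of the primes -/
def pbound (L : ℕ) : ℕ := 1024 * ((kbound L + 1) * (kbound L + 1))

/-- some prime up to the bound shows that the determinant for the digits `d` is not `0` -/
def good (A : RMat) (L R : ℕ) (d : List ℕ) : Bool :=
  (List.range (pbound L)).any fun p => isPrime (p + 1) && elimOK (p + 1) (matmod (p + 1) R d A)

/-- the number of pairs -/
def terms (w : List Letter) : ℕ := cnt w Letter.pair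

/-- the word is the word of a square symbolic matrix -/
def wellformed (w : List Letter) : Bool :=
  decide (codeR (parse w) = w) && (canon (parse w) && sqr (parse w))

/-- the decision for the list `vs` of lists of digits -/
def decideWith (w : List Letter) (vs : List (List ℕ)) : Bool :=
  wellformed w && vs.any fun d => good (parse w) w.length (sideC (terms w)) d

/-- the list of all lists of digits -/
def allDigits (w : List Letter) : List (List ℕ) :=
  vecs (dmax (terms w) (sideC (terms w))) (digs (terms w) (sideC (terms w)))

/-- **The decision.** -/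
def accept (w : List Letter) : Bool := decideWith w (allDigits w)

/-! ### The exact matrix -/

/-- the value of an entry at the point `x` -/
def evalE {F : Type} [Ring F] (x : ℕ → F) (e : List (ℤ × ℕ)) : F :=
  (e.map fun p => (p.1 : F) * x p.2).sum

/-- the matrix at the point `x` -/
def evalM {F : Type} [Ring F] (A : SMat) (x : ℕ → F) : Matrix (Fin A.length) (Fin A.length) F :=
  fun i j => evalE x ((A.getD i []).getD j [])

/-- the variables of all pairs -/
def varsN (A : SMat) : List ℕ := A.flatMap fun r => r.flatMap fun e => e.map Prod.snd

/-- the point for the digits `d` -/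
def pointN (A : SMat) (R : ℕ) (d : List ℕ) (k : ℕ) : ℤ := (xval (varsN A) R d k : ℤ)

end Pool.Agent.Lib.MP_64d474_lc.ST
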