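import Pool.Agent.Lib.MP_64d474_lc.ST.Stmts
import Pool.Agent.Lib.MP_64d474_lc.SubExp.Grid
import Pool.Agent.Lib.MP_64d474_lc.SubExp.Factor
import Pool.Agent.Lib.MP_64d474_lc.SubExp.Hybrid
import Pool.Agent.Lib.MP_64d474_lc.SubExp.Count

/-!
# Assembly
-/

set_option autoImplicit false

open Finset Pool.Agent.Lib.PT
open Pool.Agent.Lib.MP_64d474_lc.SubExp

namespace Pool.Agent.Lib.MP_64d474_lc.ST

theorem evalE_map {F G : Type} [Ring F] [Ring G] (φ : F →+* G) (x : ℕ → F)
    (e : List (ℤ × ℕ)) : φ (evalE x e) = evalE (fun k => φ (x k)) e := by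
  unfold evalE
  rw [map_list_sum, List.map_map]
  congr 1
  refine List.map_congr_left fun p _ => ?_
  simp

theorem evalM_map {F G : Type} [Ring F] [Ring G] (φ : F →+* G) (A : SMat) (x : ℕ → F) :
    (evalM A x).map φ = evalM A fun k => φ (x k) := by
  ext i j
  exact evalE_map φ x _

theorem cast_point {F : Type*} [Semiring F] {m : ℕ} (a : Fin m → ℕ) (R : ℕ)
    (v : Par (∑ j, a j) R → ℕ) (k : Fin m) :
    ((pt a R v k : ℕ) : F) = pt a R (fun c => (v c : F)) k := cast_pt a R v k

theorem stHit (h1 : StGen) (h2 : StRank) (h3 : StPts) : StHit := by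
  classical
  intro A R hsq hR hdet
  obtain ⟨x, hx⟩ := h1 A hdet
  obtain ⟨hrk, hev⟩ := h2 A hsq
  obtain ⟨-, hpts⟩ := h3 (varsN A) R hR
  choose U V hUV using fun j => exists_factor_of_rank_le (mats A j) (hrk j)
  have hd : ((0 : Matrix (Fin A.length) (Fin A.length) ℚ) +
      ∑ j, x ((varsN A).get j) • mats A j).det ≠ 0 := by
    rw [zero_add, ← hev]
    exact hx
  obtain ⟨z, y, w, hzyw⟩ := hybrid (mults (varsN A)) hR 0 (mats A) U V hUV _ hd
  obtain ⟨v, hv, hvdet⟩ := all_par (mults (varsN A)) R 0 (mats A) U V hUV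
    (Sum.elim z (Sum.elim y w)) hzyw
  obtain ⟨d, hdm, hpt⟩ := hpts v hv
  refine ⟨d, hdm, ?_⟩
  intro h0
  apply hvdet
  have key : (0 : Matrix (Fin A.length) (Fin A.length) ℚ) +
      ∑ k, pt (mults (varsN A)) R (fun c => (v c : ℚ)) k • mats A k =
      (evalM A (pointN A R d) : Matrix _ _ ℤ).map (Int.castRingHom ℚ) := by
    rw [zero_add, evalM_map, hev]
    refine sum_congr rfl fun j _ => ?_
    by_cases hj : (varsN A).idxOf ((varsN A).get j) = j
    · rw [← cast_pt, hpt j hj]
      simp [pointN]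
    · have : mats A j = 0 := by
        unfold mats
        rw [if_neg hj]
      rw [this, smul_zero, smul_zero]
  rw [key, ← RingHom.mapMatrix_apply, ← RingHom.map_det, h0, map_zero]

theorem length_matmod (p R : ℕ) (d : List ℕ) (A : SMat) :
    (matmod p R d (raw A)).length = A.length := by
  simp [matmod, raw]

theorem rows_matmod (p R : ℕ) (d : List ℕ) (A : SMat) (h : ∀ r ∈ A, r.length = A.length) :
    ∀ r ∈ matmod p R d (raw A), r.length = (matmod p R d (raw A)).length := by
  intro r hr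
  rw [length_matmod]
  simp only [matmod, raw, List.map_map, List.mem_map, Function.comp_apply] at hr
  obtain ⟨r', hr', rfl⟩ := hr
  simp [h r' hr']

theorem elimOK_iff (hel : StElim) (hmod : StMod) (A : SMat) (p R : ℕ) (d : List ℕ)
    (hp : p.Prime) (h : ∀ r ∈ A, r.length = A.length) :
    elimOK p (matmod p R d (raw A)) = true ↔
      ¬ (p : ℤ) ∣ (evalM A (pointN A R d) : Matrix _ _ ℤ).det := by
  have : Fact p.Prime := ⟨hp⟩
  rw [hel p _ (rows_matmod p R d A h)]
  have hlen := length_matmod p R d A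
  have e : (Matrix.of fun i j : Fin (matmod p R d (raw A)).length =>
      (((((matmod p R d (raw A)).getD i []).getD j 0 : ℕ)) : ZMod p)) =
      ((evalM A (pointN A R d) : Matrix _ _ ℤ).map (Int.castRingHom (ZMod p))).submatrix
        (finCongr hlen) (finCongr hlen) := by
    ext i j
    have := hmod A p R d hp.pos h (finCongr hlen i) (finCongr hlen j)
    simpa using this
  rw [e, Matrix.det_submatrix_equiv_self, ← RingHom.mapMatrix_apply, ← RingHom.map_det]
  rw [eq_intCast, Ne, ZMod.intCast_zmod_eq_zero_iff_dvd]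

theorem square_of_raw (A : SMat) (h : sqr (raw A) = true) : ∀ r ∈ A, r.length = A.length := by
  intro r hr
  unfold sqr at h
  rw [List.all_eq_true] at h
  have := h (r.map fun e => e.map rawPair) (List.mem_map.2 ⟨r, hr, rfl⟩)
  simpa [raw] using this

theorem raw_square (A : SMat) (h : ∀ r ∈ A, r.length = A.length) : sqr (raw A) = true := by
  unfold sqr
  rw [List.all_eq_true]
  intro r hr
  simp only [raw, List.mem_map] at hr
  obtain ⟨r', hr', rfl⟩ := hr
  simp [raw, h r' hr']

theorem accept_iff (hP : StParse) (hR : StRaw) (hS : StSizes) (hpr : StPrime)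
    (hip : StIsPrime) (hel : StElim) (hmod : StMod) (hb : StBound) (hside : StSide)
    (hev : StEval) (hhit : StHit) (w : List Letter) :
    accept w = true ↔ ∃ A : SMat, code A = w ∧ Nonsingular A := by
  unfold accept decideWith wellformed
  simp only [Bool.and_eq_true, decide_eq_true_eq, List.any_eq_true]
  obtain ⟨hR1, hR2, hR3⟩ := hR
  constructor
  · rintro ⟨⟨h1, h2, h3⟩, d, hd, h4⟩
    have h5 := hR3 _ h2
    set A := unraw (parse w) with hA
    rw [← h5] at h1 h3 h4
    have hsq := square_of_raw A h3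
    refine ⟨A, by rw [← hR1, h1], hsq, ?_⟩
    unfold good at h4
    simp only [List.any_eq_true, Bool.and_eq_true] at h4
    obtain ⟨p, hp, h6, h7⟩ := h4
    have hpp : (p + 1).Prime := (hip _).1 h6
    rw [elimOK_iff hel hmod A _ _ _ hpp hsq] at h7
    intro h8
    apply h7
    rw [← hev, h8, map_zero]
    exact dvd_zero _
  · rintro ⟨A, rfl, hsq, hdet⟩
    have h1 : parse (code A) = raw A := by rw [← hR1, hP]
    rw [h1]
    refine ⟨⟨hR1 A, hR2 A, raw_square A hsq⟩, ?_⟩
    obtain ⟨hS1, hS2, hS3, hS4, hS5⟩ := hS A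
    obtain ⟨s1, s2, s3, s4⟩ := hside (varsN A).length
    obtain ⟨d, hd, hd0⟩ := hhit A (sideC (varsN A).length) hsq s1 hdet
    refine ⟨d, ?_, ?_⟩
    · unfold allDigits
      rw [hS1]
      exact hd
    · obtain ⟨p, hp, hpp, hpd⟩ := hpr _ _ hd0 (hb A _ d hsq s1 s3 hd)
      unfold good
      simp only [List.any_eq_true, Bool.and_eq_true]
      refine ⟨p - 1, ?_, ?_⟩
      · rw [List.mem_range]
        have := hpp.pos
        unfold pbound
        omega
      · have e : p - 1 + 1 = p := Nat.sub_add_cancel hpp.pos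
        rw [e, hS1]
        exact ⟨(hip p).2 hpp, (elimOK_iff hel hmod A p _ d hpp hsq).2 hpd⟩

end Pool.Agent.Lib.MP_64d474_lc.ST
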