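import Pool.Agent.Lib.MP_64d474_lc.ST.Stmts

/-!
# The bound for the determinants of the tests
-/

set_option autoImplicit false

namespace Pool.Agent.Lib.MP_64d474_lc.ST

namespace Bnd

theorem vecs_le (D T : ℕ) : ∀ d ∈ vecs D T, ∀ x ∈ d, x ≤ D := by
  unfold vecs
  induction T with
  | zero =>
    intro d hd x hx
    have h1 : d = [] := List.mem_singleton.1 hd
    subst h1
    exact absurd hx List.not_mem_nil
  | succ T ih =>
    intro d hd y hy
    rw [Function.iterate_succ_apply'] at hd
    obtain ⟨l, hl, hd⟩ := List.mem_flatMap.1 hd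
    obtain ⟨x, hx, rfl⟩ := List.mem_map.1 hd
    rcases List.mem_cons.1 hy with rfl | hy
    · exact Nat.lt_succ_iff.1 (List.mem_range.1 hx)
    · exact ih l hl y hy

theorem getD_le {D : ℕ} {d : List ℕ} (h : ∀ x ∈ d, x ≤ D) (i : ℕ) : d.getD i 0 ≤ D := by
  rw [List.getD_eq_getElem?_getD]
  by_cases hi : i < d.length
  · rw [List.getElem?_eq_getElem hi, Option.getD_some]
    exact h _ (List.getElem_mem hi)
  · rw [List.getElem?_eq_none (not_lt.1 hi)]
    exact Nat.zero_le D

theorem fold_le {D Q q : ℕ} (hq : q ≤ Q) (hQ : 1 ≤ Q) (l : List ℕ) (hl : ∀ a ∈ l, a ≤ D) :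
    l.foldr (fun z a => (z + a) * q) 0 ≤ l.length * D * Q ^ l.length := by
  induction l with
  | nil => exact Nat.zero_le _
  | cons z l ih =>
    have h1 := ih fun a ha => hl a (List.mem_cons_of_mem _ ha)
    have h2 : z ≤ D := hl z List.mem_cons_self
    rw [List.foldr_cons, List.length_cons]
    have h3 : 1 ≤ Q ^ l.length := Nat.one_le_pow _ _ hQ
    calc (z + l.foldr (fun z a => (z + a) * q) 0) * q
        ≤ (D + l.length * D * Q ^ l.length) * Q := Nat.mul_le_mul (Nat.add_le_add h2 h1) hq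
      _ ≤ (D * Q ^ l.length + l.length * D * Q ^ l.length) * Q := by
          refine Nat.mul_le_mul_right _ (Nat.add_le_add_right ?_ _)
          exact Nat.le_mul_of_pos_right D h3
      _ = (l.length + 1) * D * Q ^ (l.length + 1) := by ring

theorem lt_pow (m : ℕ) : m + 1 ≤ 2 ^ m := Nat.lt_two_pow_self

/-- the bound for the coordinates of the points -/
theorem xval_le {β : Type} [DecidableEq β] (V : List β) (L R : ℕ) (d : List ℕ) (v : β)
    (hV : V.length ≤ L) (hR : 1 ≤ R) (hR' : R ≤ V.length + 1)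
    (hd : ∀ x ∈ d, x ≤ dmax V.length R) : xval V R d v ≤ 2 ^ (22 * (L + 2) ^ 3) := by
  obtain ⟨M, hM⟩ : ∃ M, M = L + 2 := ⟨_, rfl⟩
  rw [← hM]
  have hM2 : 2 ≤ M := by omega
  have hRM : R + 1 ≤ M := by omega
  have hVM : V.length ≤ M := by omega
  have hN : srcs R ≤ 5 * M ^ 2 := by
    have h1 : R * R ≤ M ^ 2 := by
      rw [pow_two]
      exact Nat.mul_le_mul (by omega) (by omega)
    have h2 : R ≤ M ^ 2 := by nlinarith
    unfold srcs
    omega
  have hD : dmax V.length R ≤ 5 * M ^ 3 := by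
    unfold dmax
    calc srcs R * V.length ≤ 5 * M ^ 2 * M := Nat.mul_le_mul hN hVM
      _ = 5 * M ^ 3 := by ring
  have hMp : M ≤ 2 ^ (M - 1) := by
    have := lt_pow (M - 1)
    omega
  have hD2 : 5 * M ^ 3 ≤ 2 ^ (3 * M) := by
    calc 5 * M ^ 3 ≤ 2 ^ 3 * (2 ^ (M - 1)) ^ 3 :=
          Nat.mul_le_mul (by norm_num) (Nat.pow_le_pow_left hMp 3)
      _ = 2 ^ (3 + (M - 1) * 3) := by rw [← pow_mul, ← pow_add]
      _ = 2 ^ (3 * M) := by
          congr 1
          omega
  have hM3 : 4 * M ≤ M ^ 3 := by nlinarith [Nat.mul_le_mul hM2 hM2]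
  unfold xval
  split_ifs with hc
  · have hq : 2 ^ (offs V v % R) * d.getD (srcs R + offs V v / R) 0 ≤ 2 ^ (4 * M) := by
      calc 2 ^ (offs V v % R) * d.getD (srcs R + offs V v / R) 0
          ≤ 2 ^ M * 2 ^ (3 * M) := by
            refine Nat.mul_le_mul (Nat.pow_le_pow_right (by norm_num) ?_)
              ((getD_le hd _).trans (hD.trans hD2))
            have := Nat.mod_lt (offs V v) (show 0 < R by omega)
            omega
        _ = 2 ^ (4 * M) := by
            rw [← pow_add]
            congr 1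
            omega
    have hl : (d.take (srcs R)).length ≤ 5 * M ^ 2 := by
      rw [List.length_take]
      exact (min_le_left _ _).trans hN
    calc _ ≤ (d.take (srcs R)).length * (5 * M ^ 3) * (2 ^ (4 * M)) ^ (d.take (srcs R)).length :=
          fold_le hq (Nat.one_le_two_pow) _ fun a ha => (hd a (List.mem_of_mem_take ha)).trans hD
      _ ≤ 5 * M ^ 2 * (5 * M ^ 3) * (2 ^ (4 * M)) ^ (5 * M ^ 2) :=
          Nat.mul_le_mul (Nat.mul_le_mul_right _ hl)
            (Nat.pow_le_pow_right Nat.one_le_two_pow hl)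
      _ ≤ 2 ^ (2 * M ^ 3) * 2 ^ (20 * M ^ 3) := by
          refine Nat.mul_le_mul ?_ (le_of_eq ?_)
          · calc 5 * M ^ 2 * (5 * M ^ 3) = 25 * M ^ 5 := by ring
              _ ≤ 2 ^ 5 * (2 ^ (M - 1)) ^ 5 :=
                  Nat.mul_le_mul (by norm_num) (Nat.pow_le_pow_left hMp 5)
              _ = 2 ^ (5 + (M - 1) * 5) := by rw [← pow_mul, ← pow_add]
              _ ≤ 2 ^ (2 * M ^ 3) := Nat.pow_le_pow_right (by norm_num) (by omega)
          · rw [← pow_mul]
            congr 1
            ring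
      _ = 2 ^ (22 * M ^ 3) := by
          rw [← pow_add]
          congr 1
          ring
  · calc _ ≤ 5 * M ^ 3 := (getD_le hd _).trans hD
      _ ≤ 2 ^ (3 * M) := hD2
      _ ≤ 2 ^ (22 * M ^ 3) := Nat.pow_le_pow_right (by norm_num) (by omega)

theorem evalE_le (x : ℕ → ℤ) (X C : ℤ) (hC : 0 ≤ C) (hx : ∀ k, |x k| ≤ X)
    (e : List (ℤ × ℕ)) (he : ∀ p ∈ e, |p.1| ≤ C) : |evalE x e| ≤ e.length * (C * X) := by
  induction e with
  | nil =>
    unfold evalE
    rw [List.map_nil, List.sum_nil, abs_zero, List.length_nil, Nat.cast_zero, zero_mul]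
  | cons p e ih =>
    have h1 := ih fun p hp => he p (List.mem_cons_of_mem _ hp)
    have h2 : |p.1| ≤ C := he p List.mem_cons_self
    have h3 : evalE x (p :: e) = p.1 * x p.2 + evalE x e := by
      unfold evalE
      rw [List.map_cons, List.sum_cons, Int.cast_id]
    rw [h3, List.length_cons, Nat.cast_add, Nat.cast_one]
    calc |p.1 * x p.2 + evalE x e| ≤ |p.1 * x p.2| + |evalE x e| := abs_add_le _ _
      _ ≤ C * X + e.length * (C * X) := by
          refine add_le_add ?_ h1
          rw [abs_mul]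
          exact mul_le_mul h2 (hx _) (abs_nonneg _) hC
      _ = (e.length + 1) * (C * X) := by ring

theorem mem_getD {α : Type} (l : List (List α)) (i : ℕ) : l.getD i [] ∈ l ∨ l.getD i [] = [] := by
  rw [List.getD_eq_getElem?_getD]
  by_cases hi : i < l.length
  · rw [List.getElem?_eq_getElem hi, Option.getD_some]
    exact Or.inl (List.getElem_mem hi)
  · rw [List.getElem?_eq_none (not_lt.1 hi)]
    exact Or.inr rfl

end Bnd

open Bnd

/-- The determinants of the tests are small. -/
theorem stBound (hS : StSizes) : StBound := by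
  intro A R d _ hR hR' hd
  obtain ⟨-, -, hn, hs, hlen, hcoef⟩ := hS A
  obtain ⟨L, hL⟩ : ∃ L, L = (code A).length := ⟨_, rfl⟩
  rw [← hL] at hn hs hlen hcoef ⊢
  obtain ⟨M, hM⟩ : ∃ M, M = L + 2 := ⟨_, rfl⟩
  have hM2 : 2 ≤ M := by omega
  have hM3 : 4 * M ≤ M ^ 3 := by nlinarith [Nat.mul_le_mul hM2 hM2]
  have hx : ∀ k, |pointN A R d k| ≤ (2 ^ (22 * M ^ 3) : ℤ) := by
    intro k
    have h1 := xval_le (varsN A) L R d k hs hR hR' (vecs_le _ _ d hd)
    rw [← hM] at h1
    unfold pointN
    rw [Nat.abs_cast]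
    exact_mod_cast h1
  have hent : ∀ i j, |evalM A (pointN A R d) i j| ≤ (2 ^ (23 * M ^ 3) : ℤ) := by
    intro i j
    have key : ∀ e : List (ℤ × ℕ), e.length ≤ L → (∀ p ∈ e, p.1.natAbs < 2 ^ L) →
        |evalE (pointN A R d) e| ≤ (2 ^ (23 * M ^ 3) : ℤ) := by
      intro e he1 he2
      have h1 := evalE_le (pointN A R d) (2 ^ (22 * M ^ 3)) (2 ^ L) (by positivity) hx e
        fun p hp => by
          have h2 := he2 p hp
          rw [Int.abs_eq_natAbs]
          exact_mod_cast h2.le
      have h3 : (e.length : ℤ) ≤ 2 ^ M := by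
        have h4 : e.length ≤ 2 ^ M := by
          have := lt_pow M
          omega
        exact_mod_cast h4
      calc _ ≤ (e.length : ℤ) * (2 ^ L * 2 ^ (22 * M ^ 3)) := h1
        _ ≤ 2 ^ M * (2 ^ M * 2 ^ (22 * M ^ 3)) := by
            refine mul_le_mul h3 (mul_le_mul_of_nonneg_right ?_ (by positivity))
              (by positivity) (by positivity)
            exact pow_le_pow_right₀ (by norm_num) (by omega)
        _ = 2 ^ (M + (M + 22 * M ^ 3)) := by rw [← pow_add, ← pow_add]
        _ ≤ 2 ^ (23 * M ^ 3) := pow_le_pow_right₀ (by norm_num) (by omega)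
    unfold evalM
    rcases mem_getD A i with h1 | h1
    · rcases mem_getD (A.getD i []) j with h2 | h2
      · exact key _ (hlen _ h1 _ h2) (hcoef _ h1 _ h2)
      · rw [h2]
        exact key [] (Nat.zero_le _) fun p hp => absurd hp List.not_mem_nil
    · rw [h1]
      have h2 : ([] : List (List (ℤ × ℕ))).getD j [] = [] := rfl
      rw [h2]
      exact key [] (Nat.zero_le _) fun p hp => absurd hp List.not_mem_nil
  have hdet := Matrix.det_le (abv := AbsoluteValue.abs) (A := evalM A (pointN A R d)) hent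
  rw [Fintype.card_fin, nsmul_eq_mul] at hdet
  have h1 : |(evalM A (pointN A R d)).det| < (2 ^ kbound L : ℤ) := by
    refine lt_of_le_of_lt hdet ?_
    have h2 : A.length.factorial ≤ 2 ^ (M * M) := by
      calc A.length.factorial ≤ A.length ^ A.length := Nat.factorial_le_pow _
        _ ≤ (2 ^ M) ^ A.length := by
            refine Nat.pow_le_pow_left ?_ _
            have := lt_pow M
            omega
        _ ≤ (2 ^ M) ^ M := Nat.pow_le_pow_right Nat.one_le_two_pow (by omega)
        _ = 2 ^ (M * M) := by rw [← pow_mul]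
    have h3 : (2 ^ (23 * M ^ 3)) ^ A.length ≤ 2 ^ (23 * M ^ 3 * M) := by
      rw [← pow_mul]
      exact Nat.pow_le_pow_right (by norm_num) (Nat.mul_le_mul_left _ (by omega))
    have h4 : A.length.factorial * (2 ^ (23 * M ^ 3)) ^ A.length < 2 ^ kbound L := by
      calc _ ≤ 2 ^ (M * M) * 2 ^ (23 * M ^ 3 * M) := Nat.mul_le_mul h2 h3
        _ = 2 ^ (M * M + 23 * M ^ 3 * M) := by rw [← pow_add]
        _ < 2 ^ kbound L := by
            refine Nat.pow_lt_pow_right (by norm_num) ?_
            unfold kbound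
            rw [← hM]
            have h5 : M * M ≤ M * (M * (M * M)) := by
              refine Nat.mul_le_mul_left _ ?_
              nlinarith
            have h6 : 0 < M * (M * (M * M)) := by positivity
            have h7 : 23 * M ^ 3 * M = 23 * (M * (M * (M * M))) := by ring
            omega
    exact_mod_cast h4
  rw [Int.abs_eq_natAbs] at h1
  exact_mod_cast h1

end Pool.Agent.Lib.MP_64d474_lc.ST
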