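import Mathlib

/-!
# Symbolic matrices as words

A symbolic matrix is given row by row; every entry is a finite list of pairs (coefficient,
variable index), written in binary.
-/

set_option autoImplicit false

namespace Pool.Agent.Lib.MP_64d474_lc.ST

/-- The letters: the two binary digits, the sign `-`, the letter between coefficient and index,
and the letters that end a pair, an entry, a row. -/
inductive Letter : Type
  | zero | one | minus | comma | pair | entry | row
  deriving DecidableEq, Inhabited

instance : Fintype Letter where
  elems := {.zero, .one, .minus, .comma, .pair, .entry, .row}
  complete x := by cases x <;> simp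

/-- A symbolic matrix: the list of its rows; a row is the list of its entries; an entry is a list
of pairs (coefficient, variable index). -/
abbrev SMat : Type := List (List (List (ℤ × ℕ)))

/-- The binary digits of `n`, least significant digit first. -/
def bin (n : ℕ) : List Letter := n.bits.map fun b => if b then .one else .zero

/-- The word of a pair. -/
def codePair (p : ℤ × ℕ) : List Letter :=
  (if p.1 < 0 then [.minus] else []) ++ bin p.1.natAbs ++ [.comma] ++ bin p.2 ++ [.pair]

/-- The word of an entry. -/
def codeEntry (e : List (ℤ × ℕ)) : List Letter := e.flatMap codePair ++ [.entry]

/-- The word of a row. -/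
def codeRow (r : List (List (ℤ × ℕ))) : List Letter := r.flatMap codeEntry ++ [.row]

/-- The word of a symbolic matrix. -/
def code (A : SMat) : List Letter := A.flatMap codeRow

/-- The linear form of an entry: the sum of the `a * X k` for the pairs `(a, k)`. -/
noncomputable def form (e : List (ℤ × ℕ)) : MvPolynomial ℕ ℤ :=
  (e.map fun p => MvPolynomial.C p.1 * MvPolynomial.X p.2).sum

/-- The matrix of linear forms (missing entries are `0`; only used for square matrices). -/
noncomputable def toMat (A : SMat) : Matrix (Fin A.length) (Fin A.length) (MvPolynomial ℕ ℤ) :=
  fun i j => form ((A.getD i []).getD j [])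

/-- All rows have the length of the list of rows, and the determinant is not the polynomial 0. -/
def Nonsingular (A : SMat) : Prop :=
  (∀ r ∈ A, r.length = A.length) ∧ (toMat A).det ≠ 0

end Pool.Agent.Lib.MP_64d474_lc.ST
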