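import Pool.Agent.Lib.MP_64d474_lc.ST.Stmts

/-!
# Division is computable in polynomial time (numbers in unary)
-/

set_option autoImplicit false

open Pool.Agent.Lib.PT

namespace Pool.Agent.Lib.MP_64d474_lc.ST

namespace DivAux

theorem length_filter_lt (k N : ℕ) :
    ((List.range N).filter fun n => decide (n < k)).length = min N k := by
  induction N with
  | zero => simp
  | succ N ih =>
    rw [List.range_succ, List.filter_append, List.length_append, ih]
    by_cases h : N < k
    · rw [List.filter_cons_of_pos (by simpa using h)]
      simp only [List.filter_nil, List.length_cons, List.length_nil]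
      omega
    · rw [List.filter_cons_of_neg (by simpa using h)]
      simp only [List.filter_nil, List.length_nil]
      omega

theorem div_eq (x y : ℕ) :
    ((List.range x).filter fun n => decide (1 ≤ y) && decide ((n + 1) * y ≤ x)).length =
      x / y := by
  rcases Nat.eq_zero_or_pos y with rfl | hy
  · simp
  · have h : (fun n => decide (1 ≤ y) && decide ((n + 1) * y ≤ x)) =
        fun n => decide (n < x / y) := by
      funext n
      have h1 : (1 ≤ y) = True := eq_true hy
      have h2 : ((n + 1) * y ≤ x) = (n < x / y) :=
        propext ((Nat.le_div_iff_mul_le hy).symm.trans Nat.succ_le_iff)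
      simp only [h1, h2, decide_true, Bool.true_and]
    rw [h, length_filter_lt]
    exact Nat.min_eq_right (Nat.div_le_self x y)

end DivAux

open DivAux in
theorem stDiv : StDiv := by
  intro α _ f g hf hg
  have h1 : PTime fun p : α × ℕ => decide (1 ≤ g p.1) && decide ((p.2 + 1) * g p.1 ≤ f p.1) := by
    have e1 : PTime fun p : α × ℕ => g p.1 := hg.comp (by fun_prop)
    have e2 : PTime fun p : α × ℕ => f p.1 := hf.comp (by fun_prop)
    fun_prop
  have h2 : PTime fun a => (List.range (f a)).filter fun n =>
      decide (1 ≤ g a) && decide ((n + 1) * g a ≤ f a) :=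
    PTime.filter (f := fun a n => decide (1 ≤ g a) && decide ((n + 1) * g a ≤ f a))
      (by fun_prop) h1
  exact h2.length.of_eq fun a => div_eq (f a) (g a)

end Pool.Agent.Lib.MP_64d474_lc.ST
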