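import Pool.Agent.Lib.MP_64d474_lc.ST.Stmts

/-!
# Elimination modulo a prime
-/

set_option autoImplicit false

namespace Pool.Agent.Lib.MP_64d474_lc.ST

namespace ElimM

variable {p : ℕ}

/-- the product of a row and a vector -/
def dt : List ℕ → (ℕ → ZMod p) → ZMod p
  | [], _ => 0
  | x :: r, v => (x : ZMod p) * v 0 + dt r fun i => v (i + 1)

theorem dt_zero : ∀ (r : List ℕ) (v : ℕ → ZMod p), (∀ i < r.length, v i = 0) → dt r v = 0
  | [], _, _ => rfl
  | x :: r, v, h => by
    rw [dt, h 0 (by simp), mul_zero, zero_add]
    exact dt_zero r _ fun i hi => h (i + 1) (by simpa using hi)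

theorem dt_sum : ∀ (r : List ℕ) (v : ℕ → ZMod p),
    dt r v = ∑ j ∈ Finset.range r.length, ((r.getD j 0 : ℕ) : ZMod p) * v j
  | [], v => by simp [dt]
  | x :: r, v => by
    rw [dt, dt_sum r, List.length_cons, Finset.sum_range_succ', add_comm]
    simp

/-- the kernel of the list of rows is trivial -/
def TK (p n : ℕ) (L : List (List ℕ)) : Prop :=
  ∀ v : ℕ → ZMod p, (∀ r ∈ L, dt r v = 0) → ∀ i < n, v i = 0

theorem head_tail (r : List ℕ) (v : ℕ → ZMod p) (hr : r ≠ []) :
    dt r v = ((r.headD 0 : ℕ) : ZMod p) * v 0 + dt r.tail fun i => v (i + 1) := by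
  cases r with
  | nil => exact absurd rfl hr
  | cons x r => rfl

theorem dt_comb (hp : 0 < p) (h s : ℕ) : ∀ (xs ys : List ℕ) (w : ℕ → ZMod p),
    xs.length = ys.length →
    dt (List.zipWith (fun x y => (h * y + (p - s % p) * x) % p) xs ys) w
      = (h : ZMod p) * dt ys w - (s : ZMod p) * dt xs w
  | [], [], w, _ => by simp [dt]
  | [], y :: ys, w, hl => by simp at hl
  | x :: xs, [], w, hl => by simp at hl
  | x :: xs, y :: ys, w, hl => by
    rw [List.zipWith_cons_cons, dt, dt, dt, dt_comb hp h s xs ys _ (by simpa using hl)]
    have h1 : ((p - s % p : ℕ) : ZMod p) = -(s : ZMod p) := by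
      rw [Nat.cast_sub (Nat.mod_lt s hp).le, ZMod.natCast_mod]
      simp
    rw [ZMod.natCast_mod]
    push_cast
    rw [h1]
    ring

theorem flag (L : List (List ℕ)) (k : ℕ) : ((estep p)^[k] (false, L)).1 = false := by
  induction k generalizing L with
  | zero => rfl
  | succ k ih =>
    rw [Function.iterate_succ_apply]
    unfold estep
    split_ifs
    · exact ih _
    · exact ih _

theorem main [hp : Fact p.Prime] : ∀ (n : ℕ) (L : List (List ℕ)), L.length = n →
    (∀ r ∈ L, r.length = n) → (((estep p)^[n] (true, L)).1 = true ↔ TK p n L) := by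
  intro n
  induction n with
  | zero =>
    intro L _ _
    exact ⟨fun _ v _ i hi => absurd hi (Nat.not_lt_zero i), fun _ => rfl⟩
  | succ n ih =>
    intro L hL hr
    rw [Function.iterate_succ_apply]
    have hne : ∀ r ∈ L, r ≠ [] := by
      intro r h h0
      have := hr r h
      rw [h0] at this
      simp at this
    have hNZ : ∀ r : List ℕ, headNZ p r = true ↔ ((r.headD 0 : ℕ) : ZMod p) ≠ 0 := by
      intro r
      unfold headNZ
      rw [Bool.not_eq_true', decide_eq_false_iff_not, Ne, ZMod.natCast_eq_zero_iff,
        Nat.dvd_iff_mod_eq_zero]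
    have e0 : estep p (true, L) = if (L.filter (headNZ p)).isEmpty then (false, L) else
        (true, ((L.filter (headNZ p)).tail ++ L.filter fun r => !headNZ p r).map
          (comb p ((L.filter (headNZ p)).headD []))) := rfl
    rw [e0]
    cases hF : L.filter (headNZ p) with
    | nil =>
      rw [if_pos (List.isEmpty_nil), flag]
      constructor
      · intro h
        exact absurd h (by simp)
      · intro h
        exfalso
        have h1 := h (fun i => if i = 0 then 1 else 0) (by
          intro r hrL
          rw [head_tail r _ (hne r hrL)]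
          have h2 : ¬ (headNZ p r = true) := by
            have := List.filter_eq_nil_iff.1 hF r hrL
            exact this
          have h3 : ((r.headD 0 : ℕ) : ZMod p) = 0 := by
            by_contra h4
            exact h2 ((hNZ r).2 h4)
          rw [h3, zero_mul, zero_add]
          exact dt_zero _ _ fun i _ => if_neg (Nat.succ_ne_zero i)) 0 (Nat.succ_pos n)
        rw [if_pos rfl] at h1
        exact one_ne_zero h1
    | cons a T =>
      rw [if_neg (by simp)]
      have haF : a ∈ L.filter (headNZ p) := by
        rw [hF]
        exact List.mem_cons_self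
      have haL : a ∈ L := (List.mem_filter.1 haF).1
      have hah : ((a.headD 0 : ℕ) : ZMod p) ≠ 0 := (hNZ a).1 (List.mem_filter.1 haF).2
      set S : List (List ℕ) := T ++ L.filter fun r => !headNZ p r with hS
      have hmem : ∀ r, r ∈ L ↔ r = a ∨ r ∈ S := by
        intro r
        rw [hS, List.mem_append, ← or_assoc, ← List.mem_cons, ← hF, List.mem_filter,
          List.mem_filter]
        constructor
        · intro h
          by_cases h1 : headNZ p r = true
          · exact Or.inl ⟨h, h1⟩
          · exact Or.inr ⟨h, by simp [h1]⟩
        · rintro (h | h)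
          · exact h.1
          · exact h.1
      have hSl : S.length = n := by
        have h1 := List.length_eq_length_filter_add (l := L) (headNZ p)
        rw [hF, List.length_cons, hL] at h1
        rw [hS, List.length_append]
        omega
      change ((estep p)^[n] (true, (((a :: T).tail ++ L.filter fun r => !headNZ p r).map
          (comb p ((a :: T).headD []))))).1 = true ↔ _
      rw [List.tail_cons, List.headD_cons, ← hS]
      have hcl : ∀ r ∈ L, (comb p a r).length = n := by
        intro r h
        rw [comb, List.length_zipWith, List.length_tail, List.length_tail, hr a haL, hr r h]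
        simp
      have hct : ∀ r ∈ L, a.tail.length = r.tail.length := by
        intro r h
        rw [List.length_tail, List.length_tail, hr a haL, hr r h]
      rw [ih (S.map (comb p a)) (by rw [List.length_map, hSl]) (by
        intro r' h
        obtain ⟨r, h1, rfl⟩ := List.mem_map.1 h
        exact hcl r ((hmem r).2 (Or.inr h1)))]
      have hcomb : ∀ r ∈ L, ∀ w : ℕ → ZMod p, dt (comb p a r) w
          = ((a.headD 0 : ℕ) : ZMod p) * dt r.tail w
            - ((r.headD 0 : ℕ) : ZMod p) * dt a.tail w := fun r h w =>
        dt_comb hp.out.pos _ _ _ _ w (hct r h)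
      constructor
      · intro hT v hv
        have hva := hv a haL
        rw [head_tail a v (hne a haL)] at hva
        have h1 := hT (fun i => v (i + 1)) (by
          intro r' h
          obtain ⟨r, h1, rfl⟩ := List.mem_map.1 h
          have hrL : r ∈ L := (hmem r).2 (Or.inr h1)
          have hvr := hv r hrL
          rw [head_tail r v (hne r hrL)] at hvr
          rw [hcomb r hrL]
          have e1 := eq_neg_of_add_eq_zero_right hva
          have e2 := eq_neg_of_add_eq_zero_right hvr
          rw [e1, e2]
          ring)
        have h2 : dt a.tail (fun i => v (i + 1)) = 0 := by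
          apply dt_zero
          intro i hi
          apply h1
          rw [List.length_tail, hr a haL] at hi
          omega
        rw [h2, add_zero] at hva
        intro i hi
        cases i with
        | zero => exact (mul_eq_zero.1 hva).resolve_left hah
        | succ i => exact h1 i (by omega)
      · intro hT w hw
        set v : ℕ → ZMod p := fun i => Nat.casesOn i
          (-(dt a.tail w) / ((a.headD 0 : ℕ) : ZMod p)) w with hv
        have hv0 : v 0 = -(dt a.tail w) / ((a.headD 0 : ℕ) : ZMod p) := rfl
        have hv1 : (fun i => v (i + 1)) = w := rfl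
        have h0 : ((a.headD 0 : ℕ) : ZMod p) * v 0 = -(dt a.tail w) := by
          rw [hv0, mul_div_cancel₀ _ hah]
        have h1 := hT v (by
          intro r hrL
          rw [head_tail r v (hne r hrL), hv1]
          rcases (hmem r).1 hrL with rfl | hrS
          · rw [h0, neg_add_cancel]
          · have h2 := hw (comb p a r) (List.mem_map_of_mem hrS)
            rw [hcomb r hrL] at h2
            have h3 : ((a.headD 0 : ℕ) : ZMod p) *
                (((r.headD 0 : ℕ) : ZMod p) * v 0 + dt r.tail w) = 0 := by
              calc _ = ((r.headD 0 : ℕ) : ZMod p) * (((a.headD 0 : ℕ) : ZMod p) * v 0)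
                    + ((a.headD 0 : ℕ) : ZMod p) * dt r.tail w := by ring
                _ = ((a.headD 0 : ℕ) : ZMod p) * dt r.tail w
                    - ((r.headD 0 : ℕ) : ZMod p) * dt a.tail w := by rw [h0]; ring
                _ = 0 := h2
            exact (mul_eq_zero.1 h3).resolve_left hah)
        intro i hi
        exact h1 (i + 1) (by omega)

end ElimM

open ElimM

/-- Module Elim. -/
theorem stElim : StElim := by
  intro p hp M hM
  have h1 : elimOK p M = true ↔ TK p M.length M := main M.length M rfl hM
  rw [h1]
  set A : Matrix (Fin M.length) (Fin M.length) (ZMod p) :=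
    Matrix.of fun i j : Fin M.length => (((M.getD i []).getD j 0 : ℕ) : ZMod p) with hA
  have hrow : ∀ i : Fin M.length, M.getD i [] ∈ M := by
    intro i
    rw [List.getD_eq_getElem _ _ i.2]
    exact List.getElem_mem i.2
  have hmul : ∀ (v : ℕ → ZMod p) (i : Fin M.length),
      (A.mulVec fun j => v j) i = dt (M.getD i []) v := by
    intro v i
    rw [dt_sum, hM _ (hrow i), Finset.sum_range]
    rfl
  constructor
  · intro hT hdet
    obtain ⟨v, hv, hv0⟩ := Matrix.exists_mulVec_eq_zero_iff.2 hdet
    apply hv
    set v' : ℕ → ZMod p := fun i => if h : i < M.length then v ⟨i, h⟩ else 0 with hv'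
    have e : (fun j : Fin M.length => v' j) = v := by
      funext j
      rw [hv']
      simp
    have h2 := hT v' (by
      intro r hr
      obtain ⟨i, hi, rfl⟩ := List.mem_iff_getElem.1 hr
      have h3 := hmul v' ⟨i, hi⟩
      rw [e, hv0] at h3
      change (0 : ZMod p) = dt (M.getD i []) v' at h3
      rw [List.getD_eq_getElem _ _ hi] at h3
      exact h3.symm)
    funext j
    have h4 := h2 j j.2
    rw [← e]
    exact h4
  · intro hdet v hv i hi
    by_contra hne
    apply hdet
    refine Matrix.exists_mulVec_eq_zero_iff.1 ⟨fun j => v j, ?_, ?_⟩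
    · intro h
      exact hne (congrFun h ⟨i, hi⟩)
    · funext k
      rw [hmul v k]
      exact hv _ (hrow k)

end Pool.Agent.Lib.MP_64d474_lc.ST
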