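import Pool.Agent.Lib.MP_64d474_lc.ST.Stmts

/-!
# Evaluation of the symbolic determinant
-/

set_option autoImplicit false

namespace Pool.Agent.Lib.MP_64d474_lc.ST

theorem eval_form (x : ℕ → ℤ) (e : List (ℤ × ℕ)) :
    MvPolynomial.eval x (form e) = evalE x e := by
  unfold form evalE
  rw [map_list_sum, List.map_map]
  congr 1
  refine List.map_congr_left fun p _ => ?_
  simp

theorem stEval : StEval := by
  intro A x
  rw [RingHom.map_det]
  congr 1
  ext i j
  exact eval_form x _

end Pool.Agent.Lib.MP_64d474_lc.ST
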