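import Pool.Agent.Lib.MP_64d474_lc.ST.Eval

/-!
# A rational point where the determinant does not vanish
-/

set_option autoImplicit false

namespace Pool.Agent.Lib.MP_64d474_lc.ST

theorem stGen : StGen := by
  intro A h
  have h1 : ∃ x : ℕ → ℤ, MvPolynomial.eval x (toMat A).det ≠ 0 := by
    by_contra h2
    push Not at h2
    exact h (MvPolynomial.funext fun x => by rw [h2 x, map_zero])
  obtain ⟨x, hx⟩ := h1
  rw [stEval] at hx
  refine ⟨fun k => (x k : ℚ), ?_⟩
  have e : (evalM A fun k => (x k : ℚ)) = (evalM A x).map (Int.castRingHom ℚ) := by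
    ext i j
    show evalE _ _ = (Int.castRingHom ℚ) (evalE x _)
    unfold evalE
    rw [map_list_sum, List.map_map]
    congr 1
    refine List.map_congr_left fun p _ => ?_
    simp
  rw [e, ← RingHom.mapMatrix_apply, ← RingHom.map_det]
  intro h3
  apply hx
  exact (Int.cast_eq_zero (α := ℚ)).1 h3

end Pool.Agent.Lib.MP_64d474_lc.ST
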