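import Pool.Agent.Lib.MP_64d474_lc.ST.Stmts

/-!
# The primality test
-/

set_option autoImplicit false

namespace Pool.Agent.Lib.MP_64d474_lc.ST

theorem stIsPrime : StIsPrime := by
  intro p
  unfold isPrime
  rw [Bool.and_eq_true, decide_eq_true_eq, List.all_eq_true, Nat.prime_def_lt']
  refine and_congr_right fun hp => ?_
  constructor
  · intro h m hm hmp hd
    have h1 := h m (List.mem_range.2 hmp)
    rw [Bool.or_eq_true, decide_eq_true_eq, Bool.not_eq_true', decide_eq_false_iff_not] at h1
    rcases h1 with h1 | h1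
    · omega
    · exact h1 (Nat.mod_eq_zero_of_dvd hd)
  · intro h m hm
    rw [List.mem_range] at hm
    rw [Bool.or_eq_true, decide_eq_true_eq, Bool.not_eq_true', decide_eq_false_iff_not]
    by_cases h2 : m < 2
    · exact Or.inl h2
    · exact Or.inr fun h3 => h m (by omega) hm (Nat.dvd_of_mod_eq_zero h3)

end Pool.Agent.Lib.MP_64d474_lc.ST
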