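import Pool.Agent.Lib.MP_64d474_lc.ST.Stmts
import Pool.Agent.Lib.MP_64d474_lc.SubExp.Count

/-!
# The loop that lists all digits
-/

set_option autoImplicit false
set_option maxHeartbeats 1000000

open Pool.Agent.Lib.PT Function

namespace Pool.Agent.Lib.MP_64d474_lc.ST

namespace Loop

/-- one round: all extensions of the lists -/
def ext (D : ℕ) (V : List (List ℕ)) : List (List ℕ) :=
  V.flatMap fun l => (List.range (D + 1)).map fun x => x :: l

theorem vecs_succ (D T : ℕ) : vecs D (T + 1) = ext D (vecs D T) := by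
  unfold vecs
  rw [iterate_succ_apply']
  rfl

theorem length_ext (D : ℕ) (V : List (List ℕ)) : (ext D V).length = (D + 1) * V.length := by
  unfold ext
  rw [List.length_flatMap]
  simp [Function.comp_def, mul_comm]

theorem length_vecs (D T : ℕ) : (vecs D T).length = (D + 1) ^ T := by
  induction T with
  | zero => rfl
  | succ T ih => rw [vecs_succ, length_ext, ih, pow_succ, mul_comm]

theorem mem_vecs (D T : ℕ) : ∀ d ∈ vecs D T, d.length = T ∧ ∀ x ∈ d, x ≤ D := by
  induction T with
  | zero =>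
    intro d hd
    have : d = [] := by simpa [vecs] using hd
    subst this
    simp
  | succ T ih =>
    intro d hd
    rw [vecs_succ] at hd
    unfold ext at hd
    rw [List.mem_flatMap] at hd
    obtain ⟨l, hl, hd⟩ := hd
    rw [List.mem_map] at hd
    obtain ⟨x, hx, rfl⟩ := hd
    obtain ⟨h1, h2⟩ := ih l hl
    rw [List.mem_range] at hx
    refine ⟨by simp [h1], ?_⟩
    intro y hy
    rcases List.mem_cons.1 hy with rfl | hy
    · omega
    · exact h2 y hy

theorem sz_vecs (D T : ℕ) : sz (vecs D T) ≤ (D + 1) ^ T * (T * (2 * D + 2) + 2) + 1 := by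
  have h := sz_le_of_forall (l := vecs D T) (B := T * (2 * D + 2) + 1) (by
    intro d hd
    obtain ⟨h1, h2⟩ := mem_vecs D T d hd
    have h3 := sz_le_of_forall (l := d) (B := 2 * D + 1) (by
      intro x hx
      rw [sz_nat]
      have := h2 x hx
      omega)
    rw [h1] at h3
    exact h3)
  rw [length_vecs] at h
  exact h

/-- the state: counter, largest digit, lists, input -/
abbrev St : Type := ℕ × ℕ × List (List ℕ) × List Letter

def step (q : St) : St := (q.1 - 1, q.2.1, ext q.2.1 q.2.2.1, q.2.2.2)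

def init (w : List Letter) : St :=
  (digs (terms w) (sideC (terms w)), dmax (terms w) (sideC (terms w)), [[]], w)

theorem step_iter (w : List Letter) (i : ℕ) (hi : i ≤ digs (terms w) (sideC (terms w))) :
    step^[i] (init w) = (digs (terms w) (sideC (terms w)) - i,
      dmax (terms w) (sideC (terms w)), vecs (dmax (terms w) (sideC (terms w))) i, w) := by
  induction i with
  | zero => rfl
  | succ i ih =>
    rw [iterate_succ_apply', ih (by omega)]
    unfold step
    simp only [vecs_succ]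
    rw [Nat.sub_sub]

theorem ptime_ext : PTime fun q : ℕ × List (List ℕ) => ext q.1 q.2 := by
  unfold ext
  refine PTime.flatMap (l := fun q : ℕ × List (List ℕ) => q.2)
    (f := fun q l => (List.range (q.1 + 1)).map fun x => x :: l) (by fun_prop) ?_
  exact PTime.map (l := fun p : (ℕ × List (List ℕ)) × List ℕ => List.range (p.1.1 + 1))
    (f := fun p x => x :: p.2) (by fun_prop) (by fun_prop)

theorem ptime_step : PTime step := by
  have h1 : PTime fun q : St => ext q.2.1 q.2.2.1 :=
    ptime_ext.comp (g := fun q : St => (q.2.1, q.2.2.1)) (by fun_prop)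
  unfold step
  fun_prop

theorem ptime_terms : PTime fun w : List Letter => terms w := by
  unfold terms cnt
  have h : PTime fun w : List Letter => w.filter fun u => decide (u = Letter.pair) :=
    PTime.filter (l := fun w : List Letter => w) (f := fun _ u => decide (u = Letter.pair))
      (by fun_prop) (by fun_prop)
  fun_prop

theorem ptime_init (hv : StPTSide) (hd : StDiv) : PTime init := by
  have h1 := ptime_terms
  have h2 : PTime fun w : List Letter => sideC (terms w) := hv.comp h1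
  have h3 : PTime fun w : List Letter => terms w / sideC (terms w) :=
    hd (List Letter) _ _ h1 h2
  unfold init digs dmax srcs blks
  fun_prop

theorem sz_word (w : List Letter) : sz w ≤ 15 * (w.length + 1) := by
  have h := sz_le_of_forall (l := w) (B := 14) (by
    intro x _
    cases x <;> decide)
  omega

theorem terms_le (w : List Letter) : terms w ≤ w.length := by
  unfold terms cnt
  exact List.length_filter_le _ _

/-- the numerical bounds -/
theorem bounds (hs : StSide) (s : ℕ) :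
    digs s (sideC s) ≤ 9 * sideC s ^ 2 ∧ dmax s (sideC s) + 1 ≤ (s + 2) ^ 6 := by
  obtain ⟨h1, h2, h3, -⟩ := hs s
  set R := sideC s with hR
  constructor
  · unfold digs srcs blks
    have h4 : s / R ≤ R ^ 2 := by
      apply Nat.div_le_of_le_mul
      calc s ≤ R ^ 3 := h2
        _ = R * R ^ 2 := by ring
    have h5 : R ≤ R ^ 2 := by nlinarith
    have h6 : 1 ≤ R ^ 2 := Nat.one_le_pow _ _ h1
    have h7 : R * R = R ^ 2 := by ring
    rw [h7]
    omega
  · unfold dmax srcs
    have h4 : 4 * (R * R) + R ≤ 5 * (s + 1) ^ 2 := by nlinarith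
    have h5 := Nat.mul_le_mul_right s h4
    have h6 : 5 * (s + 1) ^ 2 * s + 1 ≤ (s + 2) ^ 6 := by
      have e1 : (s + 2) ^ 6 = (s + 2) ^ 3 * (s + 2) ^ 3 := by ring
      have e2 : 8 ≤ (s + 2) ^ 3 := by
        calc 8 = 2 ^ 3 := by norm_num
          _ ≤ (s + 2) ^ 3 := Nat.pow_le_pow_left (by omega) 3
      have e3 : (s + 1) ^ 2 * s + 1 ≤ (s + 2) ^ 3 := by nlinarith [sq_nonneg s]
      calc 5 * (s + 1) ^ 2 * s + 1 ≤ 8 * ((s + 1) ^ 2 * s + 1) := by nlinarith [sq_nonneg s]
        _ ≤ (s + 2) ^ 3 * (s + 2) ^ 3 := Nat.mul_le_mul e2 e3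
        _ = (s + 2) ^ 6 := e1.symm
    omega

theorem size_state (hs : StSide) (w : List Letter) (i : ℕ)
    (hi : i ≤ digs (terms w) (sideC (terms w))) :
    2 * digs (terms w) (sideC (terms w)) + 2 * dmax (terms w) (sideC (terms w)) +
      sz (vecs (dmax (terms w) (sideC (terms w))) i) + sz w + 20 ≤ tbound 100 w := by
  obtain ⟨h1, h2⟩ := bounds hs (terms w)
  obtain ⟨g1, g2, g3, -⟩ := hs (terms w)
  set s := terms w with hsdef
  set R := sideC s with hR
  set N := digs s R with hN
  set D := dmax s R with hD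
  set X := s + 2 with hX
  set Y := w.length + 2 with hY
  have hX2 : 2 ≤ X := by omega
  have hXY : X ≤ Y := by
    have := terms_le w
    omega
  have hY2 : 2 ≤ Y := by omega
  have hR2 : 1 ≤ R ^ 2 := Nat.one_le_pow _ _ g1
  -- powers
  have hXpos : 0 < X := by omega
  have hYpos : 0 < Y := by omega
  have a1 : R ^ 2 ≤ X ^ 2 := Nat.pow_le_pow_left (by omega) 2
  have a2 : 16 ≤ Y ^ 4 := by
    calc 16 = 2 ^ 4 := by norm_num
      _ ≤ Y ^ 4 := Nat.pow_le_pow_left hY2 4
  have a3 : X ^ 2 ≤ Y ^ 2 := Nat.pow_le_pow_left hXY 2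
  have a4 : N ≤ Y ^ 6 := by
    calc N ≤ 9 * R ^ 2 := h1
      _ ≤ 16 * Y ^ 2 := Nat.mul_le_mul (by norm_num) (a1.trans a3)
      _ ≤ Y ^ 4 * Y ^ 2 := Nat.mul_le_mul_right _ a2
      _ = Y ^ 6 := by ring
  have a5 : D + 1 ≤ Y ^ 6 := h2.trans (Nat.pow_le_pow_left hXY 6)
  have a6 : (D + 1) ^ i ≤ X ^ (54 * R ^ 2) := by
    calc (D + 1) ^ i ≤ (X ^ 6) ^ i := Nat.pow_le_pow_left h2 i
      _ ≤ (X ^ 6) ^ (9 * R ^ 2) :=
        Nat.pow_le_pow_right (Nat.pow_pos hXpos) (hi.trans h1)
      _ = X ^ (54 * R ^ 2) := by rw [← pow_mul]; ring_nf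
  have a7 : i * (2 * D + 2) + 2 ≤ Y ^ 14 := by
    have e1 : i * (2 * D + 2) ≤ Y ^ 6 * (2 * Y ^ 6) :=
      Nat.mul_le_mul (hi.trans a4) (by omega)
    have e2 : 1 ≤ Y ^ 12 := Nat.one_le_pow _ _ hYpos
    have e3 : 4 ≤ Y ^ 2 := by nlinarith
    calc i * (2 * D + 2) + 2 ≤ Y ^ 6 * (2 * Y ^ 6) + 2 := by omega
      _ = 2 * Y ^ 12 + 2 := by ring
      _ ≤ 4 * Y ^ 12 := by omega
      _ ≤ Y ^ 2 * Y ^ 12 := Nat.mul_le_mul_right _ e3
      _ = Y ^ 14 := by ring
  set Z := X ^ (54 * R ^ 2) with hZ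
  have hZ1 : 1 ≤ Z := Nat.one_le_pow _ _ hXpos
  have a8 : sz (vecs D i) ≤ Y ^ 14 * Z + 1 := by
    refine (sz_vecs D i).trans ?_
    have := Nat.mul_le_mul a6 a7
    calc (D + 1) ^ i * (i * (2 * D + 2) + 2) + 1 ≤ Z * Y ^ 14 + 1 := by omega
      _ = Y ^ 14 * Z + 1 := by ring
  have a9 : sz w ≤ Y ^ 5 := by
    calc sz w ≤ 15 * (w.length + 1) := sz_word w
      _ ≤ 16 * Y := by omega
      _ ≤ Y ^ 4 * Y := Nat.mul_le_mul_right _ a2
      _ = Y ^ 5 := by ring
  have b1 : Y ^ 5 ≤ Y ^ 14 := Nat.pow_le_pow_right hYpos (by norm_num)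
  have b2 : Y ^ 6 ≤ Y ^ 14 := Nat.pow_le_pow_right hYpos (by norm_num)
  have b3 : 1 ≤ Y ^ 14 := Nat.one_le_pow _ _ hYpos
  have b4 : Y ^ 14 ≤ Y ^ 14 * Z := Nat.le_mul_of_pos_right _ (by omega)
  have b5 : 32 ≤ Y ^ 5 := by
    calc 32 = 2 ^ 5 := by norm_num
      _ ≤ Y ^ 5 := Nat.pow_le_pow_left hY2 5
  have b6 : 2 * N + 2 * D + sz (vecs D i) + sz w + 20 ≤ 32 * (Y ^ 14 * Z) := by omega
  refine b6.trans ?_
  unfold tbound
  rw [← hsdef, ← hR, ← hX, ← hY]
  calc 32 * (Y ^ 14 * Z) ≤ Y ^ 5 * (Y ^ 14 * Z) := Nat.mul_le_mul_right _ b5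
    _ = Y ^ 19 * Z := by ring
    _ ≤ Y ^ 100 * X ^ (100 * R ^ 2) :=
      Nat.mul_le_mul (Nat.pow_le_pow_right hYpos (by norm_num))
        (Nat.pow_le_pow_right hXpos (Nat.mul_le_mul_right _ (by norm_num)))

end Loop

open Loop in
theorem stLoop (hs : StSide) (hv : StPTSide) (hd : StDiv) : StLoop := by
  refine ⟨100, fun w => ?_, ?_⟩
  · have := size_state hs w 0 (Nat.zero_le _)
    omega
  · have hg : ∀ w : List Letter, sz w ≤ tbound 100 w := fun w => by
      have := size_state hs w 0 (Nat.zero_le _)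
      omega
    have h := TB.iter (f := step) (b := fun q => !(decide (q.1 = 0))) (s := init)
      (g := tbound 100) (fun w => digs (terms w) (sideC (terms w))) ptime_step (by fun_prop)
      (ptime_init hv hd) hg
      (fun w => by
        have := size_state hs w 0 (Nat.zero_le _)
        omega)
      (fun w i hi => by
        rw [step_iter w i hi, sz_mk, sz_mk, sz_mk, sz_nat, sz_nat]
        have := size_state hs w i hi
        omega)
      (fun w i hi => by
        rw [step_iter w i hi.le]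
        simp only [Bool.not_eq_true', decide_eq_false_iff_not]
        omega)
      (fun w => by
        rw [step_iter w _ le_rfl]
        simp)
    have h2 := TB.comp (f := fun q : St => (q.2.2.2, q.2.2.1)) (by fun_prop) h hg
    have e : (fun w : List Letter => (w, allDigits w)) = fun w =>
        (fun q : St => (q.2.2.2, q.2.2.1))
          (step^[digs (terms w) (sideC (terms w))] (init w)) := by
      funext w
      rw [step_iter w _ le_rfl]
      rfl
    rw [e]
    exact h2

end Pool.Agent.Lib.MP_64d474_lc.ST
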