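import Pool.Agent.Lib.MP_64d474_lc.ST.Asm

/-!
# The machine
-/

set_option autoImplicit false
set_option maxHeartbeats 400000

open Pool.Agent.Lib.PT

namespace Pool.Agent.Lib.MP_64d474_lc.ST

theorem exists_machine (hdec : StPTDecide) (hloop : StLoop) :
    ∃ (c : ℕ) (M : Turing.TM2ComputableAux Letter Bool) (p : Polynomial ℕ),
      ∀ w : List Letter, Outputs M w [accept w] (p.eval (tbound c w)) := by
  obtain ⟨c, hc, hT⟩ := hloop
  have h0 : PTime fun q : List Letter × List (List ℕ) => [decideWith q.1 q.2] :=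
    PTime.cons hdec (PTime.const [])
  have h1 := TB.comp h0 hT hc
  obtain ⟨M, p, hM⟩ := tb_tm (G₁ := Letter) (G₂ := Bool)
    (fun a b h => EncInj.inj h) hc h1
  exact ⟨c, M, p, hM⟩

theorem terms_eq (w : List Letter) : terms w = w.count .pair := by
  unfold terms cnt
  rw [List.count_eq_countP, List.countP_eq_length_filter]
  rfl

theorem tbound_le (hside : StSide) (c : ℕ) (w : List Letter) (R : ℕ) (hR : 1 ≤ R)
    (hw : w.count .pair ≤ R ^ 3) :
    tbound c w ≤ (w.length + 2) ^ c * (w.count .pair + 2) ^ (c * R ^ 2) := by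
  unfold tbound
  rw [terms_eq]
  refine Nat.mul_le_mul_left _ (Nat.pow_le_pow_right (Nat.succ_pos _) (Nat.mul_le_mul_left _ ?_))
  exact Nat.pow_le_pow_left ((hside _).2.2.2 R hR hw) 2

open Classical in
theorem main (hside : StSide) (hdec : StPTDecide) (hloop : StLoop) (hbd : StBd)
    (hacc : ∀ w : List Letter, accept w = true ↔ ∃ A : SMat, code A = w ∧ Nonsingular A) :
    ∃ (c : ℕ) (M : Turing.TM2ComputableAux Letter Bool), ∀ (w : List Letter) (R : ℕ),
      1 ≤ R → w.count .pair ≤ R ^ 3 →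
      Nonempty (Turing.TM2OutputsInTime M.tm (w.map M.inputAlphabet.invFun)
        (some ([decide (∃ A : SMat, code A = w ∧ Nonsingular A)].map M.outputAlphabet.invFun))
        ((w.length + 2) ^ c * (w.count .pair + 2) ^ (c * R ^ 2))) := by
  obtain ⟨c, M, p, hM⟩ := exists_machine hdec hloop
  obtain ⟨c', hc'⟩ := hbd p c
  refine ⟨c', M, fun w R hR hw => ?_⟩
  have h3 : decide (∃ A : SMat, code A = w ∧ Nonsingular A) = accept w := by
    rw [Bool.eq_iff_iff, decide_eq_true_eq]
    exact (hacc w).symm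
  rw [h3]
  exact (hM w).mono ((hc' w).trans (tbound_le hside c' w R hR hw))

end Pool.Agent.Lib.MP_64d474_lc.ST
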