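import Pool.Agent.Lib.MP_64d474_lc.ST.Stmts

set_option autoImplicit false

/-!
# The matrix modulo a prime
-/

namespace Pool.Agent.Lib.MP_64d474_lc.ST

namespace Modaux

lemma valB_bits (n : ℕ) : valB n.bits = n := by
  induction n using Nat.binaryRec' with
  | zero => simp [valB]
  | bit b n h ih =>
    rw [Nat.bits_append_bit n b h]
    unfold valB at ih ⊢
    rw [List.foldr_cons, ih, Nat.bit_val]
    cases b <;> simp; ring

lemma vars_raw (A : SMat) : vars (raw A) = (varsN A).map Nat.bits := by
  unfold vars raw varsN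
  simp only [List.flatMap_map, List.map_flatMap, List.map_map]
  rfl

lemma cast_valmod (p : ℕ) (l : List Bool) : ((valmod p l : ℕ) : ZMod p) = (valB l : ZMod p) := by
  induction l with
  | nil => simp [valmod, valB]
  | cons b l ih =>
    unfold valmod valB at ih ⊢
    rw [List.foldr_cons, List.foldr_cons, ZMod.natCast_mod]
    push_cast
    rw [ih]

lemma valmod_lt (p : ℕ) (hp : 0 < p) (l : List Bool) : valmod p l < p := by
  cases l with
  | nil => exact hp
  | cons b l => exact Nat.mod_lt _ hp

lemma cast_coefmod (p : ℕ) (hp : 0 < p) (a : ℤ) :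
    ((coefmod p (decide (a < 0), a.natAbs.bits) : ℕ) : ZMod p) = (a : ZMod p) := by
  unfold coefmod
  simp only [decide_eq_true_eq]
  split_ifs with h
  · rw [ZMod.natCast_mod, Nat.cast_sub (valmod_lt p hp _).le, ZMod.natCast_self, zero_sub,
      cast_valmod, valB_bits]
    have h1 : a = -(a.natAbs : ℤ) := by omega
    conv_rhs => rw [h1]
    rw [Int.cast_neg, Int.cast_natCast]
  · rw [cast_valmod, valB_bits]
    have h1 : a = (a.natAbs : ℤ) := by omega
    conv_rhs => rw [h1]
    rw [Int.cast_natCast]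

lemma cast_entmod (hx : StXmod) (p : ℕ) (hp : 0 < p) (V : List ℕ) (R : ℕ) (d : List ℕ)
    (e : List (ℤ × ℕ)) : ((entmod p (V.map Nat.bits) R d (e.map rawPair) : ℕ) : ZMod p) =
      ((evalE (fun k => (xval V R d k : ℤ)) e : ℤ) : ZMod p) := by
  unfold entmod evalE
  rw [ZMod.natCast_mod]
  induction e with
  | nil => simp
  | cons q e ih =>
    rw [List.map_cons, List.map_cons, List.sum_cons, List.map_cons, List.sum_cons, Nat.cast_add,
      Int.cast_add, ih, Nat.cast_mul, Int.cast_mul]
    congr 1
    have h1 : ((coefmod p (rawPair q).1 : ℕ) : ZMod p) = (q.1 : ZMod p) := cast_coefmod p hp q.1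
    have h2 : ((xmod p (V.map Nat.bits) R d (rawPair q).2 : ℕ) : ZMod p) =
        ((xval V R d q.2 : ℕ) : ZMod p) := hx V p R d q.2 hp
    rw [h1, h2]
    simp

end Modaux

open Modaux in
theorem stMod (hx : StXmod) : StMod := by
  intro A p R d hp hA i j
  have hi : (i : ℕ) < A.length := i.isLt
  have hr : (A[(i : ℕ)]).length = A.length := hA _ (List.getElem_mem hi)
  have hj : (j : ℕ) < (A[(i : ℕ)]).length := by rw [hr]; exact j.isLt
  have h1 : (((matmod p R d (raw A)).getD i []).getD j 0) =
      entmod p (vars (raw A)) R d ((A[(i : ℕ)][(j : ℕ)]).map rawPair) := by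
    unfold matmod
    simp [raw, List.getD_eq_getElem?_getD, hi, hj]
  have h2 : ((A.getD i []).getD j []) = A[(i : ℕ)][(j : ℕ)] := by
    simp [List.getD_eq_getElem?_getD, hi, hj]
  rw [h1, vars_raw, cast_entmod hx p hp]
  unfold evalM
  rw [h2]
  rfl

end Pool.Agent.Lib.MP_64d474_lc.ST
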