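import Pool.Agent.Lib.MP_64d474_lc.ST.Stmts

/-!
# The word of a symbolic matrix is computable in polynomial time
-/

set_option autoImplicit false

open Pool.Agent.Lib.PT

namespace Pool.Agent.Lib.MP_64d474_lc.ST

namespace PTCodeAux

theorem ptime_bits {α : Type} [Enc α] {f : α → List Bool} (hf : PTime f) :
    PTime fun a => (f a).map bitS :=
  PTime.map (f := fun (_ : α) (b : Bool) => bitS b) hf
    (PTime.ofFinite (g := fun q : α × Bool => q.2) (by fun_prop) bitS)

theorem ptime_pair : PTime fun p : RPair => codeRPair p := by
  have h1 : PTime fun p : RPair => bif p.1.1 then [Letter.minus] else [] :=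
    PTime.cond (by fun_prop) (by fun_prop) (by fun_prop)
  have h2 : PTime fun p : RPair => if p.1.1 then [Letter.minus] else [] :=
    h1.of_eq fun p => by cases p.1.1 <;> rfl
  have h3 : PTime fun p : RPair => p.1.2.map bitS := ptime_bits (by fun_prop)
  have h4 : PTime fun p : RPair => p.2.map bitS := ptime_bits (by fun_prop)
  exact (((h2.append h3).append (PTime.const [Letter.comma])).append h4).append
    (PTime.const [Letter.pair])

theorem ptime_entry : PTime fun e : List RPair => codeREntry e := by
  have h1 : PTime fun e : List RPair => e.flatMap codeRPair :=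
    PTime.flatMap (f := fun (_ : List RPair) (p : RPair) => codeRPair p) PTime.id
      (ptime_pair.comp (g := fun q : List RPair × RPair => q.2) (by fun_prop))
  exact h1.append (PTime.const [Letter.entry])

theorem ptime_row : PTime fun r : List (List RPair) => codeRRow r := by
  have h1 : PTime fun r : List (List RPair) => r.flatMap codeREntry :=
    PTime.flatMap (f := fun (_ : List (List RPair)) (e : List RPair) => codeREntry e) PTime.id
      (ptime_entry.comp (g := fun q : List (List RPair) × List RPair => q.2) (by fun_prop))
  exact h1.append (PTime.const [Letter.row])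

end PTCodeAux

open PTCodeAux in
theorem stPTCode : StPTCode :=
  PTime.flatMap (f := fun (_ : RMat) (r : List (List RPair)) => codeRRow r) PTime.id
    (ptime_row.comp (g := fun q : RMat × List (List RPair) => q.2) (by fun_prop))

end Pool.Agent.Lib.MP_64d474_lc.ST
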