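import Pool.Agent.Lib.MP_64d474_lc.ST.Stmts

/-!
# The decision is computable in polynomial time from the list of digits
-/

set_option autoImplicit false

open Pool.Agent.Lib.PT

namespace Pool.Agent.Lib.MP_64d474_lc.ST

theorem stPTDecide (h1 : StPTWell) (h2 : StPTGood) (h3 : StPTSide) (h4 : StPTParse) :
    StPTDecide := by
  have t1 : PTime fun w : List Letter => w.filter fun u => decide (u = Letter.pair) :=
    PTime.filter (l := fun w : List Letter => w) (f := fun _ u => decide (u = Letter.pair))
      (by fun_prop) (by fun_prop)
  have t2 : PTime fun w : List Letter => terms w := by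
    unfold terms cnt
    fun_prop
  have t3 : PTime fun w : List Letter => sideC (terms w) := h3.comp t2
  have g1 : PTime fun p : (List Letter × List (List ℕ)) × List ℕ => parse p.1.1 :=
    h4.comp (g := fun p : (List Letter × List (List ℕ)) × List ℕ => p.1.1) (by fun_prop)
  have g2 : PTime fun p : (List Letter × List (List ℕ)) × List ℕ => sideC (terms p.1.1) :=
    t3.comp (g := fun p : (List Letter × List (List ℕ)) × List ℕ => p.1.1) (by fun_prop)
  have g3 : PTime fun p : (List Letter × List (List ℕ)) × List ℕ =>
      good (parse p.1.1) p.1.1.length (sideC (terms p.1.1)) p.2 :=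
    h2.comp (g := fun p : (List Letter × List (List ℕ)) × List ℕ =>
      (parse p.1.1, p.1.1.length, sideC (terms p.1.1), p.2)) (by fun_prop)
  have g4 : PTime fun q : List Letter × List (List ℕ) =>
      q.2.any fun d => good (parse q.1) q.1.length (sideC (terms q.1)) d :=
    PTime.any (l := fun q : List Letter × List (List ℕ) => q.2)
      (f := fun q d => good (parse q.1) q.1.length (sideC (terms q.1)) d) (by fun_prop) g3
  have g5 : PTime fun q : List Letter × List (List ℕ) => wellformed q.1 :=
    h1.comp (g := fun q : List Letter × List (List ℕ) => q.1) (by fun_prop)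
  unfold StPTDecide decideWith
  exact g5.and g4

end Pool.Agent.Lib.MP_64d474_lc.ST
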