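import Pool.Agent.Lib.MP_64d474_lc.ST.Stmts

/-!
# Elimination is computable in polynomial time
-/

set_option autoImplicit false

open Pool.Agent.Lib.PT

namespace Pool.Agent.Lib.MP_64d474_lc.ST

namespace PTElimM

theorem ptime_head {α : Type} [Enc α] {f : α → ℕ} {g : α → List ℕ} (hf : PTime f)
    (hg : PTime g) : PTime fun a => headNZ (f a + 1) (g a) := by
  have h : PTime fun a => !decide ((g a).headD 0 % (f a + 1) = 0) :=
    (((hg.headD (PTime.const 0)).mod (hf.add (PTime.const 1))).natEq (PTime.const 0)).not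
  exact h

theorem ptime_comb (hz : StZip) : PTime fun t : ℕ × List ℕ × List ℕ =>
    comb (t.1 + 1) t.2.1 t.2.2 := by
  have h := hz (ℕ × List ℕ × List ℕ) ℕ ℕ ℕ (fun t => t.2.1.tail) (fun t => t.2.2.tail)
    (fun t x y => (t.2.1.headD 0 * y + ((t.1 + 1) - t.2.2.headD 0 % (t.1 + 1)) * x) % (t.1 + 1))
    (by fun_prop) (by fun_prop) (by fun_prop)
  exact h

/-- the state of the elimination with the modulus -/
abbrev St : Type := ℕ × Bool × List (List ℕ)

theorem ptime_fil : PTime fun t : St => t.2.2.filter (headNZ (t.1 + 1)) :=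
  PTime.filter (l := fun t : St => t.2.2) (f := fun t r => headNZ (t.1 + 1) r)
    (by fun_prop) (ptime_head (f := fun p : St × List ℕ => p.1.1) (g := fun p => p.2)
      (by fun_prop) (by fun_prop))

theorem ptime_filN : PTime fun t : St => t.2.2.filter fun r => !headNZ (t.1 + 1) r :=
  PTime.filter (l := fun t : St => t.2.2) (f := fun t r => !headNZ (t.1 + 1) r)
    (by fun_prop) (ptime_head (f := fun p : St × List ℕ => p.1.1) (g := fun p => p.2)
      (by fun_prop) (by fun_prop)).not

theorem ptime_estep (hz : StZip) : PTime fun t : St => estep (t.1 + 1) t.2 := by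
  have h1 : PTime fun t : St => (t.2.2.filter (headNZ (t.1 + 1))).isEmpty := ptime_fil.isEmpty
  have h2 : PTime fun t : St => (t.2.2.filter (headNZ (t.1 + 1))).headD [] :=
    ptime_fil.headD (PTime.const [])
  have h3 : PTime fun t : St => (t.2.2.filter (headNZ (t.1 + 1))).tail ++
      t.2.2.filter fun r => !headNZ (t.1 + 1) r := ptime_fil.tail.append ptime_filN
  have h4 : PTime fun t : St => ((t.2.2.filter (headNZ (t.1 + 1))).tail ++
      t.2.2.filter fun r => !headNZ (t.1 + 1) r).map
      (comb (t.1 + 1) ((t.2.2.filter (headNZ (t.1 + 1))).headD [])) := by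
    refine PTime.map (f := fun (t : St) r => comb (t.1 + 1)
      ((t.2.2.filter (headNZ (t.1 + 1))).headD []) r) h3 ?_
    have h5 : PTime fun p : St × List ℕ =>
        (p.1.2.2.filter (headNZ (p.1.1 + 1))).headD [] :=
      h2.comp (g := fun p : St × List ℕ => p.1) (by fun_prop)
    exact (ptime_comb hz).comp (g := fun p : St × List ℕ =>
      (p.1.1, (p.1.2.2.filter (headNZ (p.1.1 + 1))).headD [], p.2))
      (PTime.pair (by fun_prop) (PTime.pair h5 (by fun_prop)))
  have h5 : PTime fun t : St => bif (t.2.2.filter (headNZ (t.1 + 1))).isEmpty then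
      (false, t.2.2) else (t.2.1, ((t.2.2.filter (headNZ (t.1 + 1))).tail ++
      t.2.2.filter fun r => !headNZ (t.1 + 1) r).map
      (comb (t.1 + 1) ((t.2.2.filter (headNZ (t.1 + 1))).headD []))) :=
    PTime.cond h1 (PTime.pair (PTime.const false) (by fun_prop))
      (PTime.pair (by fun_prop) h4)
  refine h5.of_eq fun t => ?_
  unfold estep
  cases (t.2.2.filter (headNZ (t.1 + 1))).isEmpty <;> rfl

/-- the invariant of the elimination -/
def Inv (S B : ℕ) (L : List (List ℕ)) : Prop :=
  L.length ≤ S ∧ ∀ r ∈ L, r.length ≤ S ∧ sz r ≤ B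

theorem inv_step {q S B : ℕ} (hB : S * (2 * q + 2) + 1 ≤ B) {s : Bool × List (List ℕ)}
    (h : Inv S B s.2) : Inv S B (estep (q + 1) s).2 := by
  unfold estep
  split_ifs with h0
  · exact h
  · refine ⟨?_, ?_⟩
    · change (List.map _ _).length ≤ S
      rw [List.length_map, List.length_append, List.length_tail]
      have h1 := List.length_eq_length_filter_add (l := s.2) (headNZ (q + 1))
      have h2 := h.1
      omega
    · intro r' hr'
      change r' ∈ List.map _ _ at hr'
      obtain ⟨r, hr, rfl⟩ := List.mem_map.1 hr'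
      have hrs : r ∈ s.2 := by
        rcases List.mem_append.1 hr with h1 | h1
        · exact (List.mem_filter.1 (List.mem_of_mem_tail h1)).1
        · exact (List.mem_filter.1 h1).1
      have hl : (comb (q + 1) ((s.2.filter (headNZ (q + 1))).headD []) r).length ≤ S := by
        rw [comb, List.length_zipWith]
        have h1 := (h.2 r hrs).1
        have h2 : r.tail.length ≤ r.length := by
          rw [List.length_tail]
          omega
        exact (min_le_right _ _).trans (h2.trans h1)
      refine ⟨hl, ?_⟩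
      have h3 : ∀ x ∈ comb (q + 1) ((s.2.filter (headNZ (q + 1))).headD []) r,
          sz x ≤ 2 * q + 1 := by
        intro x hx
        rw [comb] at hx
        obtain ⟨i, hi, rfl⟩ := List.mem_iff_getElem.1 hx
        rw [List.getElem_zipWith, sz_nat]
        have hq : ∀ y : ℕ, y % (q + 1) ≤ q := fun y =>
          Nat.le_of_lt_succ (Nat.mod_lt y (Nat.succ_pos q))
        exact Nat.succ_le_succ (Nat.mul_le_mul_left 2 (hq _))
      have h4 := sz_le_of_forall h3
      have h5 : (comb (q + 1) ((s.2.filter (headNZ (q + 1))).headD []) r).length * (2 * q + 1 + 1)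
          ≤ S * (2 * q + 2) := Nat.mul_le_mul_right _ hl
      omega

theorem inv_iter {q S B : ℕ} (hB : S * (2 * q + 2) + 1 ≤ B) (i : ℕ)
    {s : Bool × List (List ℕ)} (h : Inv S B s.2) : Inv S B ((estep (q + 1))^[i] s).2 := by
  induction i generalizing s with
  | zero => exact h
  | succ i ih =>
    rw [Function.iterate_succ_apply]
    exact ih (inv_step hB h)

theorem sz_state {S B : ℕ} {s : Bool × List (List ℕ)} (h : Inv S B s.2) :
    sz s ≤ S * (B + 1) + 5 := by
  obtain ⟨b, L⟩ := s
  rw [sz_mk]
  have h1 := sz_bool b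
  have h2 := sz_le_of_forall fun r hr => (h.2 r hr).2
  have h3 : L.length * (B + 1) ≤ S * (B + 1) := Nat.mul_le_mul_right _ h.1
  change sz L ≤ L.length * (B + 1) + 1 at h2
  omega

end PTElimM

open PTElimM

/-- Module PTElim. -/
theorem stPTElim (hz : StZip) : StPTElim := by
  have hit : PTime fun q : ℕ × List (List ℕ) =>
      ((fun s => estep (q.1 + 1) s)^[q.2.length] (true, q.2)) := by
    refine PTime.iterate (n := fun q : ℕ × List (List ℕ) => q.2.length)
      (s := fun q => (true, q.2)) (f := fun q s => estep (q.1 + 1) s)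
      (B := fun q => sz q * (sz q * sz q + 1 + 1) + 5) (by fun_prop)
      (PTime.pair (PTime.const true) (by fun_prop)) ?_ ?_ ?_
    · exact (ptime_estep hz).comp
        (g := fun p : (ℕ × List (List ℕ)) × Bool × List (List ℕ) => (p.1.1, p.2)) (by fun_prop)
    · exact (PB.sz.mul (((PB.sz.mul PB.sz).add (PB.const 1)).add (PB.const 1))).add (PB.const 5)
    · intro q i _
      obtain ⟨q, M⟩ := q
      have hs : sz (q, M) = 2 * q + 1 + sz M + 1 := by rw [sz_mk, sz_nat]
      have h0 : sz M * (2 * q + 2) ≤ sz (q, M) * sz (q, M) := by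
        apply Nat.mul_le_mul
        · rw [hs]; omega
        · rw [hs]; omega
      have hI : Inv (sz M) (sz (q, M) * sz (q, M) + 1) (true, M).2 := by
        refine ⟨length_le_sz M, ?_⟩
        intro r hr
        have h1 : sz r ≤ sz M := sz_mem_le hr
        have h2 := length_le_sz r
        have h3 : sz M ≤ sz (q, M) := by rw [hs]; omega
        have h4 : sz (q, M) ≤ sz (q, M) * sz (q, M) := Nat.le_mul_self _
        exact ⟨by omega, by omega⟩
      have h5 := sz_state (inv_iter (q := q) (S := sz M) (B := sz (q, M) * sz (q, M) + 1)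
        (by omega) i hI)
      have h6 : sz M * (sz (q, M) * sz (q, M) + 1 + 1)
          ≤ sz (q, M) * (sz (q, M) * sz (q, M) + 1 + 1) :=
        Nat.mul_le_mul_right _ (by rw [hs]; omega)
      exact h5.trans (Nat.add_le_add_right h6 5)
  exact (hit.fst').of_eq fun q => rfl

end Pool.Agent.Lib.MP_64d474_lc.ST
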