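import Pool.Agent.Lib.MP_64d474_lc.ST.Stmts

/-!
# The matrix modulo a number is computable in polynomial time
-/

set_option autoImplicit false

open Pool.Agent.Lib.PT

namespace Pool.Agent.Lib.MP_64d474_lc.ST

namespace PTMatAux

theorem valmod_le (q : ℕ) (l : List Bool) : valmod (q + 1) l ≤ q := by
  cases l with
  | nil => exact Nat.zero_le q
  | cons b l =>
    change ((if b then 1 else 0) + 2 * valmod (q + 1) l) % (q + 1) ≤ q
    exact Nat.le_of_lt_succ (Nat.mod_lt _ (Nat.succ_pos q))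

theorem ptime_valmod : PTime fun q : ℕ × List Bool => valmod (q.1 + 1) q.2 := by
  have key : ∀ (q : ℕ × List Bool) (l : List Bool),
      l.foldl (fun (a : ℕ) (b : Bool) => ((if b then 1 else 0) + 2 * a) % (q.1 + 1)) 0 =
        valmod (q.1 + 1) l.reverse := by
    intro q l
    rw [valmod, List.foldr_reverse]
  have hstep : PTime fun p : (ℕ × List Bool) × ℕ × Bool =>
      ((if p.2.2 then 1 else 0) + 2 * p.2.1) % (p.1.1 + 1) := by
    have h1 : PTime fun p : (ℕ × List Bool) × ℕ × Bool => bif p.2.2 then 1 else 0 :=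
      PTime.cond (by fun_prop) (by fun_prop) (by fun_prop)
    have h2 : PTime fun p : (ℕ × List Bool) × ℕ × Bool => if p.2.2 then 1 else 0 :=
      h1.of_eq fun p => by cases p.2.2 <;> rfl
    fun_prop
  refine (PTime.foldl (l := fun q : ℕ × List Bool => q.2.reverse) (s := fun _ => 0)
    (f := fun q (a : ℕ) (b : Bool) => ((if b then 1 else 0) + 2 * a) % (q.1 + 1))
    (by fun_prop) (by fun_prop) hstep (B := fun q => sz q) PB.sz ?_).of_eq fun q => ?_
  · intro q l₁ l₂ _
    rw [key, sz_nat, sz_mk, sz_nat]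
    have := valmod_le q.1 l₁.reverse
    omega
  · rw [key, List.reverse_reverse]

theorem ptime_coefmod : PTime fun q : ℕ × Bool × List Bool => coefmod (q.1 + 1) q.2 := by
  have h1 : PTime fun q : ℕ × Bool × List Bool => valmod (q.1 + 1) q.2.2 :=
    ptime_valmod.comp (g := fun q : ℕ × Bool × List Bool => (q.1, q.2.2)) (by fun_prop)
  have h2 : PTime fun q : ℕ × Bool × List Bool =>
      bif q.2.1 then (q.1 + 1 - valmod (q.1 + 1) q.2.2) % (q.1 + 1) else
        valmod (q.1 + 1) q.2.2 :=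
    PTime.cond (by fun_prop) (by fun_prop) h1
  refine h2.of_eq fun q => ?_
  rw [coefmod]
  cases q.2.1 <;> rfl

/-- the parameters: the modulus, the variables, the side, the digits -/
abbrev Pr : Type := ℕ × List (List Bool) × ℕ × List ℕ

theorem ptime_entmod (hx : StPTX) : PTime fun t : Pr × List RPair =>
    entmod (t.1.1 + 1) t.1.2.1 t.1.2.2.1 t.1.2.2.2 t.2 := by
  have h1 : PTime fun t : (Pr × List RPair) × RPair => coefmod (t.1.1.1 + 1) t.2.1 :=
    ptime_coefmod.comp (g := fun t : (Pr × List RPair) × RPair => (t.1.1.1, t.2.1))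
      (by fun_prop)
  have hx' : PTime fun q : ℕ × List (List Bool) × ℕ × List ℕ × List Bool =>
    xmod (q.1 + 1) q.2.1 q.2.2.1 q.2.2.2.1 q.2.2.2.2 := hx
  have h2 : PTime fun t : (Pr × List RPair) × RPair =>
      xmod (t.1.1.1 + 1) t.1.1.2.1 t.1.1.2.2.1 t.1.1.2.2.2 t.2.2 :=
    hx'.comp (g := fun t : (Pr × List RPair) × RPair =>
      (t.1.1.1, t.1.1.2.1, t.1.1.2.2.1, t.1.1.2.2.2, t.2.2)) (by fun_prop)
  have h3 : PTime fun t : Pr × List RPair => t.2.map fun q : RPair =>
      coefmod (t.1.1 + 1) q.1 * xmod (t.1.1 + 1) t.1.2.1 t.1.2.2.1 t.1.2.2.2 q.2 :=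
    PTime.map (f := fun (t : Pr × List RPair) (q : RPair) =>
      coefmod (t.1.1 + 1) q.1 * xmod (t.1.1 + 1) t.1.2.1 t.1.2.2.1 t.1.2.2.2 q.2)
      (by fun_prop) (h1.mul h2)
  have h4 : PTime fun t : Pr × List RPair => t.1.1 + 1 := by fun_prop
  exact h3.sum.mod h4

theorem ptime_vars : PTime fun A : RMat => vars A := by
  have h1 : PTime fun q : ((RMat × List (List RPair)) × List RPair) × RPair => q.2.2 := by
    fun_prop
  have h2 : PTime fun q : (RMat × List (List RPair)) × List RPair =>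
      q.2.map fun p : RPair => p.2 :=
    PTime.map (f := fun (_ : (RMat × List (List RPair)) × List RPair) (p : RPair) => p.2)
      (by fun_prop) h1
  have h3 : PTime fun q : RMat × List (List RPair) =>
      q.2.flatMap fun e : List RPair => e.map fun p : RPair => p.2 :=
    PTime.flatMap (f := fun (_ : RMat × List (List RPair)) (e : List RPair) =>
      e.map fun p : RPair => p.2) (by fun_prop) h2
  exact PTime.flatMap (f := fun (_ : RMat) (r : List (List RPair)) =>
    r.flatMap fun e : List RPair => e.map fun p : RPair => p.2) PTime.id h3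

end PTMatAux

open PTMatAux in
theorem stPTMat (hx : StPTX) : StPTMat := by
  have hv : PTime fun q : ((ℕ × ℕ × List ℕ × RMat) × List (List RPair)) × List RPair =>
      vars q.1.1.2.2.2 :=
    ptime_vars.comp (g := fun q : ((ℕ × ℕ × List ℕ × RMat) × List (List RPair)) × List RPair =>
      q.1.1.2.2.2) (by fun_prop)
  have h1 : PTime fun q : ((ℕ × ℕ × List ℕ × RMat) × List (List RPair)) × List RPair =>
      entmod (q.1.1.1 + 1) (vars q.1.1.2.2.2) q.1.1.2.1 q.1.1.2.2.1 q.2 :=
    (ptime_entmod hx).comp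
      (g := fun q : ((ℕ × ℕ × List ℕ × RMat) × List (List RPair)) × List RPair =>
        ((q.1.1.1, vars q.1.1.2.2.2, q.1.1.2.1, q.1.1.2.2.1), q.2)) (by fun_prop)
  have h2 : PTime fun q : (ℕ × ℕ × List ℕ × RMat) × List (List RPair) =>
      q.2.map (entmod (q.1.1 + 1) (vars q.1.2.2.2) q.1.2.1 q.1.2.2.1) :=
    PTime.map (f := fun (q : (ℕ × ℕ × List ℕ × RMat) × List (List RPair)) (e : List RPair) =>
      entmod (q.1.1 + 1) (vars q.1.2.2.2) q.1.2.1 q.1.2.2.1 e) (by fun_prop) h1
  exact PTime.map (f := fun (q : ℕ × ℕ × List ℕ × RMat) (r : List (List RPair)) =>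
    r.map (entmod (q.1 + 1) (vars q.2.2.2) q.2.1 q.2.2.1)) (by fun_prop) h2

end Pool.Agent.Lib.MP_64d474_lc.ST
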