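import Pool.Agent.Lib.MP_64d474_lc.ST.Stmts

/-!
# The parser runs in polynomial time
-/

set_option autoImplicit false

open Pool.Agent.Lib.PT

namespace Pool.Agent.Lib.MP_64d474_lc.ST

namespace PTParseaux

theorem finite_letter : Finite Letter :=
  Finite.of_surjective (α := Fin 7) (fun i => match i with
    | 0 => .zero | 1 => .one | 2 => .minus | 3 => .comma | 4 => .pair | 5 => .entry | 6 => .row)
    fun a => by
      cases a
      exacts [⟨0, rfl⟩, ⟨1, rfl⟩, ⟨2, rfl⟩, ⟨3, rfl⟩, ⟨4, rfl⟩, ⟨5, rfl⟩, ⟨6, rfl⟩]

theorem sz_step (s : PS) (a : Letter) : sz (pstep s a) ≤ sz s + 20 := by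
  obtain ⟨R, E, P, f, sg, c, i⟩ := s
  have h1 := sz_bool f
  have h2 := sz_bool sg
  have h3 := sz_bool true
  have h4 := sz_bool false
  have h5 := sz_pos f
  have h6 := sz_pos sg
  cases a <;> cases f <;>
    simp only [pstep, pbit, sz_mk, sz_cons, sz_nil, sz_reverse, cond_true, cond_false] <;> omega

theorem sz_fold (w : List Letter) (s : PS) : sz (w.foldl pstep s) ≤ sz s + 20 * w.length := by
  induction w generalizing s with
  | nil => simp
  | cons a w ih =>
    rw [List.foldl_cons, List.length_cons]
    have h1 := ih (pstep s a)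
    have h2 := sz_step s a
    omega

theorem ptime_pbit (b : Bool) : PTime (pbit b) := by
  have h1 : PTime fun s : PS => bif s.2.2.2.1 then s.2.2.2.2.2.1 else b :: s.2.2.2.2.2.1 :=
    PTime.cond (by fun_prop) (by fun_prop) (by fun_prop)
  have h2 : PTime fun s : PS => bif s.2.2.2.1 then b :: s.2.2.2.2.2.2 else s.2.2.2.2.2.2 :=
    PTime.cond (by fun_prop) (by fun_prop) (by fun_prop)
  exact PTime.pair (by fun_prop) (PTime.pair (by fun_prop) (PTime.pair (by fun_prop)
    (PTime.pair (by fun_prop) (PTime.pair (by fun_prop) (PTime.pair h1 h2)))))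

theorem step : PTime fun p : List Letter × PS × Letter => pstep p.2.1 p.2.2 := by
  have := finite_letter
  refine PTime.finCases (g := fun p : List Letter × PS × Letter => p.2.2)
    (h := fun p b => pstep p.2.1 b) (by fun_prop) fun b => ?_
  cases b
  · exact (ptime_pbit false).comp (by fun_prop)
  · exact (ptime_pbit true).comp (by fun_prop)
  all_goals
    simp only [pstep]
    fun_prop

end PTParseaux

theorem stPTParse : StPTParse := by
  have h := PTime.foldl (l := fun w : List Letter => w)
    (s := fun _ => (([], [], [], false, false, [], []) : PS)) (f := fun _ => pstep)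
    PTime.id (PTime.const _) PTParseaux.step (B := fun w => 20 + 20 * sz w) ?_ ?_
  · unfold StPTParse parse
    exact h.fst'.reverse
  · exact (PB.const 20).add ((PB.const 20).mul PTime.id.sz_le)
  · intro w l₁ l₂ e
    have h1 := PTParseaux.sz_fold l₁ (([], [], [], false, false, [], []) : PS)
    have h2 : sz (([], [], [], false, false, [], []) : PS) ≤ 20 := by decide
    have h3 := length_le_sz w
    rw [e, List.length_append] at h3
    rw [e]
    omega

end Pool.Agent.Lib.MP_64d474_lc.ST
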