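import Pool.Agent.Lib.MP_64d474_lc.ST.Stmts

/-!
# The side is computable in polynomial time
-/

set_option autoImplicit false

open Pool.Agent.Lib.PT

namespace Pool.Agent.Lib.MP_64d474_lc.ST

theorem stPTSide : StPTSide := by
  unfold StPTSide sideC
  have h : PTime fun s : ℕ => (List.range (s + 2)).filter fun R =>
      decide (1 ≤ R) && decide (s ≤ R * (R * R)) :=
    PTime.filter (l := fun s : ℕ => List.range (s + 2))
      (f := fun s R => decide (1 ≤ R) && decide (s ≤ R * (R * R))) (by fun_prop) (by fun_prop)
  fun_prop

end Pool.Agent.Lib.MP_64d474_lc.ST
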