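import Pool.Agent.Lib.MP_64d474_lc.ST.Stmts

/-!
# Wellformed words are recognised in polynomial time
-/

set_option autoImplicit false

open Pool.Agent.Lib.PT

namespace Pool.Agent.Lib.MP_64d474_lc.ST

namespace PTWellAux

theorem ptime_canonB : PTime fun l : List Bool => canonB l := by
  change PTime fun l : List Bool => l.reverse.headD true
  fun_prop

theorem ptime_canonP : PTime fun p : RPair => canonP p := by
  have h1 : PTime fun p : RPair => canonB p.1.2 := ptime_canonB.comp (by fun_prop)
  have h2 : PTime fun p : RPair => canonB p.2 := ptime_canonB.comp (by fun_prop)
  change PTime fun p : RPair => (canonB p.1.2 && canonB p.2) && !(p.1.1 && p.1.2.isEmpty)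
  fun_prop

theorem ptime_canon : PTime fun A : RMat => canon A := by
  have h1 : PTime fun q : ((RMat × List (List RPair)) × List RPair) × RPair => canonP q.2 :=
    ptime_canonP.comp (by fun_prop)
  have h2 : PTime fun q : (RMat × List (List RPair)) × List RPair => q.2.all canonP :=
    PTime.all (f := fun (_ : (RMat × List (List RPair)) × List RPair) (p : RPair) => canonP p)
      (by fun_prop) h1
  have h3 : PTime fun q : RMat × List (List RPair) => q.2.all fun e => e.all canonP :=
    PTime.all (f := fun (_ : RMat × List (List RPair)) (e : List RPair) => e.all canonP)
      (by fun_prop) h2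
  exact PTime.all (f := fun (_ : RMat) (r : List (List RPair)) => r.all fun e => e.all canonP)
    PTime.id h3

theorem ptime_sqr : PTime fun A : RMat => sqr A := by
  have h1 : PTime fun q : RMat × List (List RPair) => decide (q.2.length = q.1.length) := by
    fun_prop
  exact PTime.all (f := fun (A : RMat) (r : List (List RPair)) => decide (r.length = A.length))
    PTime.id h1

end PTWellAux

open PTWellAux in
theorem stPTWell (h1 : StPTParse) (h2 : StPTCode) : StPTWell := by
  have h1' : PTime fun w : List Letter => parse w := h1
  have h2' : PTime fun A : RMat => codeR A := h2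
  have h3 : PTime fun w : List Letter => codeR (parse w) := h2'.comp h1'
  have h4 : PTime fun w : List Letter => decide (codeR (parse w) = w) := h3.eq PTime.id
  have h5 : PTime fun w : List Letter => canon (parse w) := ptime_canon.comp h1'
  have h6 : PTime fun w : List Letter => sqr (parse w) := ptime_sqr.comp h1'
  exact h4.and (h5.and h6)

end Pool.Agent.Lib.MP_64d474_lc.ST
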