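import Pool.Agent.Lib.MP_64d474_lc.ST.Stmts

/-!
# The values of the variables modulo a number are computable in polynomial time
-/

set_option autoImplicit false

open Pool.Agent.Lib.PT

namespace Pool.Agent.Lib.MP_64d474_lc.ST

namespace PTXAux

section

variable {β : Type} [Enc β] [EncInj β] [DecidableEq β]

theorem ptime_cnt : PTime fun q : List β × β => cnt q.1 q.2 := by
  have h : PTime fun q : List β × β => q.1.filter fun u => decide (u = q.2) :=
    PTime.filter (f := fun (q : List β × β) u => decide (u = q.2)) (by fun_prop) (by fun_prop)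
  exact h.length

theorem ptime_offs : PTime fun q : List β × β => offs q.1 q.2 := by
  have h1 : PTime fun p : (List β × β) × β => p.1.1.idxOf p.2 :=
    PTime.idxOf (by fun_prop) (by fun_prop)
  have h2 : PTime fun p : (List β × β) × β => p.1.1.idxOf p.1.2 :=
    PTime.idxOf (by fun_prop) (by fun_prop)
  have h : PTime fun q : List β × β =>
      q.1.filter fun u => decide (q.1.idxOf u < q.1.idxOf q.2) :=
    PTime.filter (f := fun (q : List β × β) u => decide (q.1.idxOf u < q.1.idxOf q.2))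
      (by fun_prop) (h1.lt h2)
  exact h.length

end

theorem dbl_le (p k y : ℕ) : dbl (p + 1) k y ≤ p := by
  unfold dbl
  cases k with
  | zero => exact Nat.le_of_lt_succ (Nat.mod_lt _ (Nat.succ_pos p))
  | succ k =>
    rw [Function.iterate_succ_apply']
    exact Nat.le_of_lt_succ (Nat.mod_lt _ (Nat.succ_pos p))

/-- `2 ^ k * y` modulo `p + 1`; the triple is `(p, k, y)`. -/
theorem ptime_dbl : PTime fun q : ℕ × ℕ × ℕ => dbl (q.1 + 1) q.2.1 q.2.2 := by
  refine PTime.iterate (n := fun q : ℕ × ℕ × ℕ => q.2.1) (s := fun q => q.2.2 % (q.1 + 1))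
    (f := fun q x => 2 * x % (q.1 + 1)) (by fun_prop) (by fun_prop) (by fun_prop)
    (B := fun q => sz q) PB.sz ?_
  intro q i _
  have h : (fun x => 2 * x % (q.1 + 1))^[i] (q.2.2 % (q.1 + 1)) ≤ q.1 := dbl_le q.1 i q.2.2
  rw [sz_nat, sz_mk, sz_nat]
  omega

/-- One step of the fold. -/
def stp (p b : ℕ) (a z : ℕ) : ℕ := (z + a) * b % (p + 1)

theorem fold_le (p b : ℕ) (l : List ℕ) : l.foldl (stp p b) 0 ≤ p := by
  rw [← List.reverse_reverse l]
  rw [List.foldl_reverse]
  cases l.reverse with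
  | nil => exact Nat.zero_le p
  | cons x t => exact Nat.le_of_lt_succ (Nat.mod_lt _ (Nat.succ_pos p))

/-- The fold; the triple is `(p, b, l)`. -/
theorem ptime_fold : PTime fun q : ℕ × ℕ × List ℕ => q.2.2.foldl (stp q.1 q.2.1) 0 := by
  refine PTime.foldl (l := fun q : ℕ × ℕ × List ℕ => q.2.2) (s := fun _ => 0)
    (f := fun q a z => stp q.1 q.2.1 a z) (by fun_prop) (by fun_prop) ?_
    (B := fun q => sz q) PB.sz ?_
  · unfold stp
    fun_prop
  · intro q l₁ l₂ _
    have h := fold_le q.1 q.2.1 l₁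
    rw [sz_nat, sz_mk, sz_nat]
    have h' : List.foldl (fun a z => stp q.1 q.2.1 a z) 0 l₁ ≤ q.1 := h
    omega

end PTXAux

open PTXAux in
theorem stPTX (hd : StDiv) : StPTX := by
  have hc : PTime fun q : ℕ × List (List Bool) × ℕ × List ℕ × List Bool =>
      cnt q.2.1 q.2.2.2.2 :=
    ptime_cnt.comp (g := fun q : ℕ × List (List Bool) × ℕ × List ℕ × List Bool =>
      (q.2.1, q.2.2.2.2)) (by fun_prop)
  have ho : PTime fun q : ℕ × List (List Bool) × ℕ × List ℕ × List Bool =>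
      offs q.2.1 q.2.2.2.2 :=
    ptime_offs.comp (g := fun q : ℕ × List (List Bool) × ℕ × List ℕ × List Bool =>
      (q.2.1, q.2.2.2.2)) (by fun_prop)
  have hR : PTime fun q : ℕ × List (List Bool) × ℕ × List ℕ × List Bool => q.2.2.1 := by
    fun_prop
  have hod : PTime fun q : ℕ × List (List Bool) × ℕ × List ℕ × List Bool =>
      offs q.2.1 q.2.2.2.2 / q.2.2.1 := hd _ _ _ ho hR
  have hom : PTime fun q : ℕ × List (List Bool) × ℕ × List ℕ × List Bool =>
      offs q.2.1 q.2.2.2.2 % q.2.2.1 := ho.mod hR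
  have hs : PTime fun q : ℕ × List (List Bool) × ℕ × List ℕ × List Bool => srcs q.2.2.1 := by
    unfold srcs
    fun_prop
  have hb : PTime fun q : ℕ × List (List Bool) × ℕ × List ℕ × List Bool =>
      blks q.2.1.length q.2.2.1 := by
    have h : PTime fun q : ℕ × List (List Bool) × ℕ × List ℕ × List Bool =>
        q.2.1.length / q.2.2.1 := hd _ _ _ (by fun_prop) hR
    unfold blks
    fun_prop
  -- the doubled digit
  have h1 : PTime fun q : ℕ × List (List Bool) × ℕ × List ℕ × List Bool =>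
      q.2.2.2.1.getD (srcs q.2.2.1 + offs q.2.1 q.2.2.2.2 / q.2.2.1) 0 :=
    PTime.getD (by fun_prop) (hs.add hod) (by fun_prop)
  have h2 : PTime fun q : ℕ × List (List Bool) × ℕ × List ℕ × List Bool =>
      q.2.2.2.1.getD (srcs q.2.2.1 + blks q.2.1.length q.2.2.1 +
        offs q.2.1 q.2.2.2.2 / q.2.2.1) 0 % (q.1 + 1) :=
    (PTime.getD (by fun_prop) ((hs.add hb).add hod) (by fun_prop)).mod (by fun_prop)
  have h3 : PTime fun q : ℕ × List (List Bool) × ℕ × List ℕ × List Bool =>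
      dbl (q.1 + 1) (offs q.2.1 q.2.2.2.2 % q.2.2.1)
        (q.2.2.2.1.getD (srcs q.2.2.1 + offs q.2.1 q.2.2.2.2 / q.2.2.1) 0) :=
    ptime_dbl.comp (g := fun q : ℕ × List (List Bool) × ℕ × List ℕ × List Bool =>
      (q.1, offs q.2.1 q.2.2.2.2 % q.2.2.1,
        q.2.2.2.1.getD (srcs q.2.2.1 + offs q.2.1 q.2.2.2.2 / q.2.2.1) 0)) (by fun_prop)
  have h4 : PTime fun q : ℕ × List (List Bool) × ℕ × List ℕ × List Bool =>
      (q.2.2.2.1.take (srcs q.2.2.1)).reverse := by fun_prop
  have h5 : PTime fun q : ℕ × List (List Bool) × ℕ × List ℕ × List Bool =>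
      (q.2.2.2.1.take (srcs q.2.2.1)).reverse.foldl (stp q.1
        (dbl (q.1 + 1) (offs q.2.1 q.2.2.2.2 % q.2.2.1)
          (q.2.2.2.1.getD (srcs q.2.2.1 + offs q.2.1 q.2.2.2.2 / q.2.2.1) 0))) 0 :=
    ptime_fold.comp (g := fun q : ℕ × List (List Bool) × ℕ × List ℕ × List Bool =>
      (q.1, dbl (q.1 + 1) (offs q.2.1 q.2.2.2.2 % q.2.2.1)
          (q.2.2.2.1.getD (srcs q.2.2.1 + offs q.2.1 q.2.2.2.2 / q.2.2.1) 0),
        (q.2.2.2.1.take (srcs q.2.2.1)).reverse)) (by fun_prop)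
  refine (PTime.ite (p := fun q : ℕ × List (List Bool) × ℕ × List ℕ × List Bool =>
    cnt q.2.1 q.2.2.2.2 ≤ q.2.2.1) (hc.le hR) h5 h2).of_eq fun q => ?_
  unfold xmod
  split_ifs
  · rw [List.foldl_reverse]
    rfl
  · rfl

end Pool.Agent.Lib.MP_64d474_lc.ST
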