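import Pool.Agent.Lib.MP_64d474_lc.ST.Stmts

/-!
# The parser inverts the coding
-/

set_option autoImplicit false

namespace Pool.Agent.Lib.MP_64d474_lc.ST

namespace Parseaux

theorem bits_false (l : List Bool) (R : RMat) (E : List (List RPair)) (P : List RPair) (s : Bool)
    (c i : List Bool) : (l.map bitS).foldl pstep (R, E, P, false, s, c, i) =
      (R, E, P, false, s, l.reverse ++ c, i) := by
  induction l generalizing c with
  | nil => rfl
  | cons b l ih =>
    rw [List.map_cons, List.foldl_cons]
    have h : pstep (R, E, P, false, s, c, i) (bitS b) = (R, E, P, false, s, b :: c, i) := by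
      cases b <;> rfl
    rw [h, ih, List.reverse_cons, List.append_assoc]
    rfl

theorem bits_true (l : List Bool) (R : RMat) (E : List (List RPair)) (P : List RPair) (s : Bool)
    (c i : List Bool) : (l.map bitS).foldl pstep (R, E, P, true, s, c, i) =
      (R, E, P, true, s, c, l.reverse ++ i) := by
  induction l generalizing i with
  | nil => rfl
  | cons b l ih =>
    rw [List.map_cons, List.foldl_cons]
    have h : pstep (R, E, P, true, s, c, i) (bitS b) = (R, E, P, true, s, c, b :: i) := by
      cases b <;> rfl
    rw [h, ih, List.reverse_cons, List.append_assoc]
    rfl

theorem pair (p : RPair) (R : RMat) (E : List (List RPair)) (P : List RPair) :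
    (codeRPair p).foldl pstep (R, E, P, false, false, [], []) =
      (R, E, p :: P, false, false, [], []) := by
  obtain ⟨⟨s, c⟩, i⟩ := p
  unfold codeRPair
  rw [List.foldl_append, List.foldl_append, List.foldl_append, List.foldl_append]
  have h1 : (if ((s, c), i).1.1 then [Letter.minus] else []).foldl pstep
      (R, E, P, false, false, [], []) = (R, E, P, false, s, [], []) := by
    cases s <;> rfl
  rw [h1, bits_false]
  have h2 : ([Letter.comma] : List Letter).foldl pstep (R, E, P, false, s, c.reverse ++ [], []) =
      (R, E, P, true, s, c.reverse ++ [], []) := rfl
  rw [h2, bits_true]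
  have h3 : ([Letter.pair] : List Letter).foldl pstep
      (R, E, P, true, s, c.reverse ++ [], i.reverse ++ []) =
      (R, E, ((s, (c.reverse ++ []).reverse), (i.reverse ++ []).reverse) :: P, false, false,
        [], []) := rfl
  rw [h3, List.append_nil, List.append_nil, List.reverse_reverse, List.reverse_reverse]

theorem pairs (e : List RPair) (R : RMat) (E : List (List RPair)) (P : List RPair) :
    (e.flatMap codeRPair).foldl pstep (R, E, P, false, false, [], []) =
      (R, E, e.reverse ++ P, false, false, [], []) := by
  induction e generalizing P with
  | nil => rfl
  | cons p e ih =>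
    rw [List.flatMap_cons, List.foldl_append, pair, ih, List.reverse_cons, List.append_assoc]
    rfl

theorem entry (e : List RPair) (R : RMat) (E : List (List RPair)) :
    (codeREntry e).foldl pstep (R, E, [], false, false, [], []) =
      (R, e :: E, [], false, false, [], []) := by
  unfold codeREntry
  rw [List.foldl_append, pairs]
  have h : ([Letter.entry] : List Letter).foldl pstep
      (R, E, e.reverse ++ [], false, false, [], []) =
      (R, (e.reverse ++ []).reverse :: E, [], false, false, [], []) := rfl
  rw [h, List.append_nil, List.reverse_reverse]

theorem entries (r : List (List RPair)) (R : RMat) (E : List (List RPair)) :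
    (r.flatMap codeREntry).foldl pstep (R, E, [], false, false, [], []) =
      (R, r.reverse ++ E, [], false, false, [], []) := by
  induction r generalizing E with
  | nil => rfl
  | cons e r ih =>
    rw [List.flatMap_cons, List.foldl_append, entry, ih, List.reverse_cons, List.append_assoc]
    rfl

theorem row (r : List (List RPair)) (R : RMat) :
    (codeRRow r).foldl pstep (R, [], [], false, false, [], []) =
      (r :: R, [], [], false, false, [], []) := by
  unfold codeRRow
  rw [List.foldl_append, entries]
  have h : ([Letter.row] : List Letter).foldl pstep
      (R, r.reverse ++ [], [], false, false, [], []) =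
      ((r.reverse ++ []).reverse :: R, [], [], false, false, [], []) := rfl
  rw [h, List.append_nil, List.reverse_reverse]

theorem rows (A : RMat) (R : RMat) :
    (A.flatMap codeRRow).foldl pstep (R, [], [], false, false, [], []) =
      (A.reverse ++ R, [], [], false, false, [], []) := by
  induction A generalizing R with
  | nil => rfl
  | cons r A ih =>
    rw [List.flatMap_cons, List.foldl_append, row, ih, List.reverse_cons, List.append_assoc]
    rfl

end Parseaux

theorem stParse : StParse := by
  intro A
  unfold parse codeR
  rw [Parseaux.rows, List.append_nil, List.reverse_reverse]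

end Pool.Agent.Lib.MP_64d474_lc.ST
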