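import Pool.Agent.Lib.MP_64d474_lc.ST.Stmts

/-!
# A small prime that does not divide a given number

A nonzero integer of absolute value less than `2 ^ K` has fewer than `K` prime divisors, and there
are at least `K + 1` primes up to `1024 (K + 1) ^ 2` (Chebyshev).
-/

set_option autoImplicit false

namespace Pool.Agent.Lib.MP_64d474_lc.ST

namespace PrimeAux

open Real

/-- Chebyshev: there are at least `u` primes up to `1024 u ^ 2`. -/
lemma le_primeCounting (u : ℕ) (hu : 1 ≤ u) : u ≤ Nat.primeCounting (1024 * (u * u)) := by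
  have hu' : (1 : ℝ) ≤ u := by exact_mod_cast hu
  have hu0 : (0 : ℝ) < u := by linarith
  set n : ℕ := 1024 * (u * u) with hn
  have hnR : (n : ℝ) = 1024 * ((u : ℝ) * u) := by rw [hn]; push_cast; ring
  have hn1 : (1024 : ℝ) ≤ n := by
    rw [hnR]
    nlinarith
  have hl2 : (0.69 : ℝ) ≤ log 2 := by
    have := Real.log_two_gt_d9
    linarith
  have hl2' : log 2 ≤ (0.7 : ℝ) := by
    have := Real.log_two_lt_d9
    linarith
  have hlu : log (u : ℝ) ≤ u - 1 := Real.log_le_sub_one_of_pos hu0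
  have hlogn : log (n : ℝ) = 10 * log 2 + 2 * log u := by
    have e : (n : ℝ) = 2 ^ 10 * (u : ℝ) ^ 2 := by rw [hnR]; ring
    rw [e, Real.log_mul (by positivity) (by positivity), Real.log_pow, Real.log_pow]
    push_cast
    ring
  have hlogn1 : log ((n : ℝ) + 1) ≤ log 2 + log n := by
    rw [← Real.log_mul (by norm_num) (by linarith)]
    exact Real.log_le_log (by linarith) (by linarith)
  have hpos : 0 < log (n : ℝ) := Real.log_pos (by linarith)
  have h1 := Chebyshev.pi_ge n
  have h2 : (u : ℝ) ≤ ((n : ℝ) * log 2 - log ((n : ℝ) + 1)) / log n := by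
    rw [le_div_iff₀ hpos]
    have h3 : log (n : ℝ) ≤ 5 + 2 * u := by
      rw [hlogn]
      linarith
    have h4 : (n : ℝ) * 0.69 ≤ n * log 2 := mul_le_mul_of_nonneg_left hl2 (by linarith)
    have h5 : (u : ℝ) * log n ≤ u * (5 + 2 * u) := mul_le_mul_of_nonneg_left h3 hu0.le
    have h6 : (u : ℝ) ≤ u * u := by nlinarith
    have h7 : (1 : ℝ) ≤ u * u := by nlinarith
    have h8 : (n : ℝ) * 0.69 = 706.56 * (u * u) := by rw [hnR]; ring
    have h9 : (u : ℝ) * (5 + 2 * u) = 5 * u + 2 * (u * u) := by ring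
    rw [h8] at h4
    rw [h9] at h5
    linarith
  have h3 : (u : ℝ) ≤ (Nat.primeCounting n : ℝ) := h2.trans h1
  exact_mod_cast h3

end PrimeAux

theorem stPrime : StPrime := by
  intro K D hD hK
  by_contra hcon
  push Not at hcon
  have h1 := PrimeAux.le_primeCounting (K + 1) (by omega)
  set n : ℕ := 1024 * ((K + 1) * (K + 1)) with hn
  have h2 : ∏ p ∈ Nat.primesLE n, p ∣ D.natAbs := by
    refine Finset.prod_primes_dvd _ ?_ ?_
    · intro p hp
      exact (Nat.prime_of_mem_primesLE hp).prime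
    · intro p hp
      have h3 := hcon p (Nat.le_of_mem_primesLE hp) (Nat.prime_of_mem_primesLE hp)
      have h4 := Int.natAbs_dvd_natAbs.mpr h3
      rwa [Int.natAbs_natCast] at h4
  have h3 : 2 ^ (Nat.primesLE n).card ≤ ∏ p ∈ Nat.primesLE n, p :=
    Finset.pow_card_le_prod _ _ _ fun p hp => Nat.two_le_of_mem_primesLE hp
  have h4 : ∏ p ∈ Nat.primesLE n, p ≤ D.natAbs :=
    Nat.le_of_dvd (Int.natAbs_pos.mpr hD) h2
  have h5 : (Nat.primesLE n).card = Nat.primeCounting n := by
    rw [Nat.primesLE_card_eq_primeCounting]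
  rw [h5] at h3
  have h6 : 2 ^ Nat.primeCounting n < 2 ^ K := (h3.trans h4).trans_lt hK
  have h7 := (Nat.pow_lt_pow_iff_right (by norm_num : 1 < 2)).mp h6
  omega

end Pool.Agent.Lib.MP_64d474_lc.ST
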