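import Pool.Agent.Lib.MP_64d474_lc.ST.Stmts

/-!
# The test points as lists of digits
-/

set_option autoImplicit false

open Finset Pool.Agent.Lib.PT
open Pool.Agent.Lib.MP_64d474_lc.SubExp (Par bd pt off nsrc nblk side)

namespace Pool.Agent.Lib.MP_64d474_lc.ST

namespace PtsAux

section

variable {β : Type} [DecidableEq β]

omit [DecidableEq β] in
theorem sum_map_ite (p : β → Bool) (V : List β) :
    (V.map fun u => if p u = true then 1 else 0).sum = (V.filter p).length := by
  induction V with
  | nil => rfl
  | cons a V ih =>
    rw [List.map_cons, List.sum_cons, ih, List.filter_cons]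
    split_ifs
    · rw [List.length_cons]
      omega
    · omega

omit [DecidableEq β] in
theorem length_filter (p : β → Bool) (V : List β) :
    (V.filter p).length = (univ.filter fun t : Fin V.length => p (V.get t) = true).card := by
  rw [card_filter, ← sum_map_ite]
  exact (Fin.sum_univ_fun_getElem V fun u => if p u = true then 1 else 0).symm

theorem idx_lt (V : List β) (t : Fin V.length) : V.idxOf (V.get t) < V.length :=
  List.idxOf_lt_length_iff.2 (List.get_mem V t)

theorem get_idx (V : List β) (t j : Fin V.length) (h : V.idxOf (V.get t) = j) :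
    V.get t = V.get j := by
  have h1 : V.get ⟨V.idxOf (V.get t), idx_lt V t⟩ = V.get t := List.idxOf_get _
  rw [← h1]
  congr 1
  exact Fin.ext h

/-- The fibres over the first occurrences. -/
theorem fib (V : List β) (j : Fin V.length) :
    (univ.filter fun t : Fin V.length => V.idxOf (V.get t) = j).card = mults V j := by
  unfold mults
  split_ifs with h
  · unfold cnt
    rw [length_filter]
    congr 1
    ext t
    simp only [mem_filter, mem_univ, true_and, decide_eq_true_eq]
    constructor
    · intro h1
      exact get_idx V t j h1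
    · intro h1
      rw [h1]
      exact h
  · rw [card_eq_zero, filter_eq_empty_iff]
    intro t _ h1
    apply h
    rw [← get_idx V t j h1]
    exact h1

theorem sum_mults (V : List β) (n : ℕ) :
    ∑ j ∈ univ.filter (fun j : Fin V.length => (j : ℕ) < n), mults V j =
      (V.filter fun u => decide (V.idxOf u < n)).length := by
  rw [length_filter]
  rw [card_eq_sum_card_fiberwise (f := fun t : Fin V.length =>
    (⟨V.idxOf (V.get t), idx_lt V t⟩ : Fin V.length))
    (t := univ.filter (fun j : Fin V.length => (j : ℕ) < n))]
  · refine sum_congr rfl fun j hj => ?_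
    rw [← fib]
    congr 1
    ext t
    simp only [mem_filter, mem_univ, true_and, decide_eq_true_eq] at hj ⊢
    rw [Fin.ext_iff]
    simp only
    constructor
    · intro h
      exact ⟨by rw [h]; exact hj, h⟩
    · intro h
      exact h.2
  · intro t ht
    simpa using ht

theorem total (V : List β) : ∑ j, mults V j = V.length := by
  have h := sum_mults V V.length
  have e1 : (univ.filter fun j : Fin V.length => (j : ℕ) < V.length) = univ :=
    filter_true_of_mem fun j _ => j.2
  rw [e1] at h
  rw [h]
  congr 1
  rw [List.filter_eq_self]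
  intro a ha
  simpa using List.idxOf_lt_length_iff.2 ha

theorem off_eq (V : List β) (j : Fin V.length) (hj : V.idxOf (V.get j) = j) :
    off (mults V) j = offs V (V.get j) := by
  unfold off offs
  rw [hj, ← sum_mults]
  rfl

end

theorem fold_eq (q : ℕ) : ∀ (n : ℕ) (z : Fin n → ℕ),
    (List.ofFn z).foldr (fun z a => (z + a) * q) 0 = ∑ i : Fin n, z i * q ^ ((i : ℕ) + 1) := by
  intro n
  induction n with
  | zero => intro z; simp
  | succ n ih =>
    intro z
    rw [List.ofFn_succ, List.foldr_cons, ih, Fin.sum_univ_succ, add_mul, sum_mul]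
    congr 1
    · simp
    · refine sum_congr rfl fun i _ => ?_
      rw [Fin.val_succ, pow_succ q ((i : ℕ) + 1)]
      ring

theorem mem_vecs (D : ℕ) : ∀ (T : ℕ) (d : List ℕ), d.length = T → (∀ x ∈ d, x ≤ D) →
    d ∈ vecs D T := by
  intro T
  induction T with
  | zero =>
    intro d h _
    rw [List.length_eq_zero_iff] at h
    rw [h]
    exact List.mem_singleton.2 rfl
  | succ T ih =>
    intro d h hd
    cases d with
    | nil => simp at h
    | cons a d =>
      have h1 := ih d (by simpa using h) fun x hx => hd x (List.mem_cons_of_mem _ hx)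
      unfold vecs at h1 ⊢
      rw [Function.iterate_succ_apply', List.mem_flatMap]
      refine ⟨d, h1, ?_⟩
      rw [List.mem_map]
      exact ⟨a, List.mem_range.2 (Nat.lt_succ_of_le (hd a List.mem_cons_self)), rfl⟩

theorem srcs_eq (R : ℕ) : nsrc R = srcs R := by
  unfold nsrc srcs
  ring

theorem blks_eq (s R : ℕ) : nblk s R = blks s R := rfl

end PtsAux

open PtsAux in
theorem stPts : StPts := by
  intro V R hR
  refine ⟨total V, fun v hv => ?_⟩
  have hs := total V
  have hS : 1 ≤ srcs R := by
    unfold srcs
    omega
  set z : Fin (nsrc R) → ℕ := fun j => v (Sum.inl j) with hz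
  set y : Fin (nblk (∑ j, mults V j) R) → ℕ := fun j => v (Sum.inr (Sum.inl j)) with hy
  set w : Fin (nblk (∑ j, mults V j) R) → ℕ := fun j => v (Sum.inr (Sum.inr j)) with hw
  have hzl : (List.ofFn z).length = srcs R := by rw [List.length_ofFn, srcs_eq]
  have hyl : (List.ofFn y).length = blks V.length R := by rw [List.length_ofFn, blks_eq, hs]
  have hwl : (List.ofFn w).length = blks V.length R := by rw [List.length_ofFn, blks_eq, hs]
  refine ⟨List.ofFn z ++ (List.ofFn y ++ List.ofFn w), mem_vecs _ _ _ ?_ ?_, ?_⟩
  · rw [List.length_append, List.length_append, hzl, hyl, hwl]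
    unfold digs
    ring
  · intro x hx
    unfold dmax
    have h1 : V.length ≤ srcs R * V.length := Nat.le_mul_of_pos_left _ hS
    rw [List.mem_append, List.mem_append, List.mem_ofFn, List.mem_ofFn, List.mem_ofFn] at hx
    rcases hx with ⟨j, rfl⟩ | ⟨j, rfl⟩ | ⟨j, rfl⟩
    · have h2 : v (Sum.inl j) ≤ ∑ j, mults V j := hv (Sum.inl j)
      exact (h2.trans hs.le).trans h1
    · have h2 : v (Sum.inr (Sum.inl j)) ≤ nsrc R * ∑ j, mults V j := hv (Sum.inr (Sum.inl j))
      exact h2.trans (le_of_eq (by rw [hs, srcs_eq]))
    · have h2 : v (Sum.inr (Sum.inr j)) ≤ ∑ j, mults V j := hv (Sum.inr (Sum.inr j))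
      exact (h2.trans hs.le).trans h1
  · intro j hj
    have hcnt : mults V j = cnt V (V.get j) := if_pos hj
    have hoff := off_eq V j hj
    have hblk : offs V (V.get j) / R < nblk (∑ j, mults V j) R := by
      rw [← hoff]
      exact (SubExp.blk (mults V) R j).2
    have hb : SubExp.blk (mults V) R j = ⟨offs V (V.get j) / R, hblk⟩ := by
      apply Fin.ext
      show off (mults V) j / R = _
      rw [hoff]
    have e1 : (List.ofFn z ++ (List.ofFn y ++ List.ofFn w)).take (srcs R) = List.ofFn z :=
      List.take_left' hzl
    have e2 : (List.ofFn z ++ (List.ofFn y ++ List.ofFn w)).getD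
        (srcs R + offs V (V.get j) / R) 0 = y ⟨offs V (V.get j) / R, hblk⟩ := by
      rw [List.getD_append_right _ _ _ _ (by rw [hzl]; exact Nat.le_add_right _ _), hzl,
        Nat.add_sub_cancel_left,
        List.getD_append _ _ _ _ (by rw [List.length_ofFn]; exact hblk),
        List.getD_eq_getElem _ _ (by rw [List.length_ofFn]; exact hblk), List.getElem_ofFn]
    have e3 : (List.ofFn z ++ (List.ofFn y ++ List.ofFn w)).getD
        (srcs R + blks V.length R + offs V (V.get j) / R) 0 =
          w ⟨offs V (V.get j) / R, hblk⟩ := by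
      rw [add_assoc, List.getD_append_right _ _ _ _ (by rw [hzl]; exact Nat.le_add_right _ _), hzl,
        Nat.add_sub_cancel_left,
        List.getD_append_right _ _ _ _ (by rw [hyl]; exact Nat.le_add_right _ _), hyl,
        Nat.add_sub_cancel_left,
        List.getD_eq_getElem _ _ (by rw [List.length_ofFn]; exact hblk), List.getElem_ofFn]
    unfold xval
    rw [e1, e2, e3, fold_eq]
    show SubExp.point (mults V) R z y w j = _
    unfold SubExp.point
    rw [hcnt, hoff, hb]

end Pool.Agent.Lib.MP_64d474_lc.ST
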