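import Pool.Agent.Lib.MP_64d474_lc.ST.Stmts

/-!
# The coefficient matrices: ranks and the value at a point
-/

set_option autoImplicit false

open Finset

namespace Pool.Agent.Lib.MP_64d474_lc.ST

namespace Rankm

/-! ### Lists -/

theorem sum_getD {α : Type} {M : Type} [AddCommMonoid M] (f : α → M) (d : α) (l : List α) :
    ∑ i : Fin l.length, f (l.getD i d) = (l.map f).sum := by
  induction l with
  | nil => simp
  | cons a l ih =>
    rw [List.map_cons, List.sum_cons, ← ih]
    have h := Fin.sum_univ_succ (fun i : Fin (l.length + 1) => f ((a :: l).getD i d))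
    simpa using h

theorem sum_getD' {α : Type} {M : Type} [AddCommMonoid M] (f : α → M) (d : α) (l : List α) {n : ℕ}
    (h : l.length = n) : ∑ i : Fin n, f (l.getD i d) = (l.map f).sum := by
  subst h
  exact sum_getD f d l

theorem cnt_flatMap {α : Type} (f : α → List ℕ) (l : List α) (k : ℕ) :
    cnt (l.flatMap f) k = (l.map fun a => cnt (f a) k).sum := by
  induction l with
  | nil => rfl
  | cons a l ih =>
    rw [List.flatMap_cons, List.map_cons, List.sum_cons, ← ih]
    simp only [cnt, List.filter_append, List.length_append]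

theorem cnt_varsN {A : SMat} (hA : ∀ r ∈ A, r.length = A.length) (k : ℕ) :
    cnt (varsN A) k = ∑ i : Fin A.length, ∑ j : Fin A.length,
      cnt (((A.getD i []).getD j []).map Prod.snd) k := by
  rw [varsN, cnt_flatMap]
  have h1 : ∀ i : Fin A.length, ∑ j : Fin A.length,
      cnt (((A.getD i []).getD j []).map Prod.snd) k =
        (fun r : List (List (ℤ × ℕ)) => cnt (r.flatMap fun e => e.map Prod.snd) k)
          (A.getD i []) := by
    intro i
    have h2 : (A.getD i []).length = A.length := by
      apply hA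
      rw [List.getD_eq_getElem _ _ i.2]
      exact List.getElem_mem _
    show _ = cnt ((A.getD i []).flatMap fun e => e.map Prod.snd) k
    rw [cnt_flatMap]
    exact sum_getD' (fun e : List (ℤ × ℕ) => cnt (e.map Prod.snd) k) [] (A.getD i []) h2
  rw [Finset.sum_congr rfl fun i _ => h1 i]
  exact (sum_getD (fun r : List (List (ℤ × ℕ)) => cnt (r.flatMap fun e => e.map Prod.snd) k) []
    A).symm

theorem coef_zero (e : List (ℤ × ℕ)) (k : ℕ) (h : cnt (e.map Prod.snd) k = 0) :
    (e.map fun p => if p.2 = k then (p.1 : ℚ) else 0).sum = 0 := by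
  apply List.sum_eq_zero
  intro x hx
  obtain ⟨p, hp, rfl⟩ := List.mem_map.1 hx
  rw [if_neg]
  intro hk
  have h1 : k ∈ (e.map Prod.snd).filter fun u => decide (u = k) := by
    rw [List.mem_filter]
    exact ⟨List.mem_map.2 ⟨p, hp, hk⟩, by simp⟩
  rw [cnt, List.length_eq_zero_iff] at h
  rw [h] at h1
  exact List.not_mem_nil h1

/-! ### Ranks -/

theorem rank_add_le' {n : ℕ} (A B : Matrix (Fin n) (Fin n) ℚ) :
    (A + B).rank ≤ A.rank + B.rank := by
  rw [Matrix.rank, Matrix.rank, Matrix.rank, Matrix.mulVecLin_add]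
  have h : LinearMap.range (A.mulVecLin + B.mulVecLin) ≤
      LinearMap.range A.mulVecLin ⊔ LinearMap.range B.mulVecLin := by
    rintro _ ⟨x, rfl⟩
    exact Submodule.add_mem_sup ⟨x, rfl⟩ ⟨x, rfl⟩
  exact (Submodule.finrank_mono h).trans (Submodule.finrank_add_le_finrank_add_finrank _ _)

theorem rank_sum {n : ℕ} {ι : Type} (s : Finset ι) (M : ι → Matrix (Fin n) (Fin n) ℚ) :
    (∑ i ∈ s, M i).rank ≤ ∑ i ∈ s, (M i).rank := by
  classical
  induction s using Finset.induction_on with
  | empty => simp
  | insert a s ha ih =>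
    rw [Finset.sum_insert ha, Finset.sum_insert ha]
    exact (rank_add_le' _ _).trans (Nat.add_le_add_left ih _)

theorem rank_single {n : ℕ} (i j : Fin n) (c : ℚ) :
    (Matrix.single i j c : Matrix (Fin n) (Fin n) ℚ).rank ≤ 1 := by
  have h : (Matrix.single i j c : Matrix (Fin n) (Fin n) ℚ) =
      Matrix.vecMulVec (Pi.single i c) (Pi.single j 1) := by
    ext a b
    rw [Matrix.vecMulVec_apply, Matrix.single_apply]
    by_cases h1 : i = a
    · by_cases h2 : j = b
      · subst h1 h2
        simp
      · subst h1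
        rw [if_neg (fun h => h2 h.2), Pi.single_eq_of_ne (fun h => h2 h.symm), mul_zero]
    · rw [if_neg (fun h => h1 h.1), Pi.single_eq_of_ne (fun h => h1 h.symm), zero_mul]
  rw [h]
  exact Matrix.rank_vecMulVec_le _ _

theorem rank_coefMat {A : SMat} (hA : ∀ r ∈ A, r.length = A.length) (k : ℕ) :
    (coefMat A k).rank ≤ cnt (varsN A) k := by
  rw [cnt_varsN hA, Matrix.matrix_eq_sum_single (coefMat A k)]
  refine (rank_sum _ _).trans (Finset.sum_le_sum fun i _ => ?_)
  refine (rank_sum _ _).trans (Finset.sum_le_sum fun j _ => ?_)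
  by_cases h : cnt (((A.getD i []).getD j []).map Prod.snd) k = 0
  · have h1 : coefMat A k i j = 0 := coef_zero _ _ h
    rw [h1, h, Matrix.single_zero, Matrix.rank_zero]
  · exact (rank_single i j _).trans (Nat.one_le_iff_ne_zero.2 h)

/-! ### The value -/

theorem eval_list (V : List ℕ) (x : ℕ → ℚ) (e : List (ℤ × ℕ)) (he : ∀ p ∈ e, p.2 ∈ V) :
    (e.map fun p => (p.1 : ℚ) * x p.2).sum =
      ∑ j : Fin V.length, if V.idxOf (V.get j) = j then
        x (V.get j) * (e.map fun p => if p.2 = V.get j then (p.1 : ℚ) else 0).sum else 0 := by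
  induction e with
  | nil => simp
  | cons p e ih =>
    have hp : p.2 ∈ V := he p List.mem_cons_self
    have hlt : V.idxOf p.2 < V.length := List.idxOf_lt_length_iff.2 hp
    rw [List.map_cons, List.sum_cons, ih fun q hq => he q (List.mem_cons_of_mem _ hq)]
    have h1 : (p.1 : ℚ) * x p.2 = ∑ j : Fin V.length, if V.idxOf (V.get j) = j then
        x (V.get j) * (if p.2 = V.get j then (p.1 : ℚ) else 0) else 0 := by
      rw [Finset.sum_eq_single (⟨V.idxOf p.2, hlt⟩ : Fin V.length)]
      · have h2 : V.get ⟨V.idxOf p.2, hlt⟩ = p.2 := by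
          rw [List.get_eq_getElem]
          exact List.getElem_idxOf hlt
        rw [h2, if_pos rfl, if_pos rfl, mul_comm]
      · intro j _ hj
        by_cases h3 : V.idxOf (V.get j) = j
        · rw [if_pos h3, if_neg, mul_zero]
          intro h4
          apply hj
          apply Fin.ext
          show (j : ℕ) = V.idxOf p.2
          rw [h4, h3]
        · rw [if_neg h3]
      · intro h
        exact absurd (Finset.mem_univ _) h
    rw [h1, ← Finset.sum_add_distrib]
    apply Finset.sum_congr rfl
    intro j _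
    by_cases h3 : V.idxOf (V.get j) = j
    · rw [if_pos h3, if_pos h3, if_pos h3, List.map_cons, List.sum_cons]
      ring
    · rw [if_neg h3, if_neg h3, if_neg h3, add_zero]

theorem mem_varsN (A : SMat) (i j : ℕ) (p : ℤ × ℕ) (hp : p ∈ (A.getD i []).getD j []) :
    p.2 ∈ varsN A := by
  by_cases hi : i < A.length
  · rw [List.getD_eq_getElem _ _ hi] at hp
    by_cases hj : j < (A[i]).length
    · rw [List.getD_eq_getElem _ _ hj] at hp
      rw [varsN, List.mem_flatMap]
      refine ⟨A[i], List.getElem_mem _, ?_⟩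
      rw [List.mem_flatMap]
      exact ⟨(A[i])[j], List.getElem_mem _, List.mem_map.2 ⟨p, hp, rfl⟩⟩
    · rw [List.getD_eq_default _ _ (not_lt.1 hj)] at hp
      exact absurd hp List.not_mem_nil
  · rw [List.getD_eq_default _ _ (not_lt.1 hi)] at hp
    simp at hp

end Rankm

open Rankm

/-- **Rank.** -/
theorem stRank : StRank := by
  intro A hA
  refine ⟨fun j => ?_, fun x => ?_⟩
  · rw [mats, mults]
    by_cases h : (varsN A).idxOf ((varsN A).get j) = j
    · rw [if_pos h, if_pos h]
      exact rank_coefMat hA _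
    · rw [if_neg h, if_neg h, Matrix.rank_zero]
  · ext i j'
    rw [Matrix.sum_apply]
    show ((((A.getD i []).getD j' []).map fun p => (p.1 : ℚ) * x p.2).sum) = _
    rw [eval_list (varsN A) x _ fun p hp => mem_varsN A i j' p hp]
    apply Finset.sum_congr rfl
    intro j _
    rw [Matrix.smul_apply, mats, smul_eq_mul]
    by_cases h : (varsN A).idxOf ((varsN A).get j) = j
    · rw [if_pos h, if_pos h]
      rfl
    · rw [if_neg h, if_neg h, Matrix.zero_apply, mul_zero]

end Pool.Agent.Lib.MP_64d474_lc.ST
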