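import Pool.Agent.Lib.MP_64d474_lc.ST.Stmts

/-!
# Numbers and digits
-/

set_option autoImplicit false

namespace Pool.Agent.Lib.MP_64d474_lc.ST

namespace Raw

theorem bin_eq (n : ℕ) : bin n = n.bits.map bitS := rfl

theorem codeRPair_raw (p : ℤ × ℕ) : codeRPair (rawPair p) = codePair p := by
  simp [codeRPair, rawPair, codePair, bin_eq]

theorem canonB_cons {b : Bool} {l : List Bool} (h : l ≠ []) : canonB (b :: l) = canonB l := by
  unfold canonB
  rw [List.reverse_cons]
  cases hl : l.reverse with
  | nil => exact absurd (List.reverse_eq_nil_iff.1 hl) h
  | cons a t => simp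

theorem canonB_one (b : Bool) : canonB [b] = b := by simp [canonB]

theorem valB_cons (b : Bool) (l : List Bool) :
    valB (b :: l) = (if b then 1 else 0) + 2 * valB l := rfl

theorem valB_pos : ∀ {l : List Bool}, canonB l = true → l ≠ [] → 0 < valB l := by
  intro l
  induction l with
  | nil => intro _ h; exact absurd rfl h
  | cons b l ih =>
    intro h _
    rw [valB_cons]
    by_cases hl : l = []
    · subst hl
      rw [canonB_one] at h
      simp [h]
    · rw [canonB_cons hl] at h
      have := ih h hl
      omega

theorem bits_valB : ∀ {l : List Bool}, canonB l = true → (valB l).bits = l := by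
  intro l
  induction l with
  | nil => intro _; exact Nat.zero_bits
  | cons b l ih =>
    intro h
    rw [valB_cons]
    by_cases hl : l = []
    · subst hl
      rw [canonB_one] at h
      subst h
      simp [valB]
    · rw [canonB_cons hl] at h
      have h1 := ih h
      have h2 := valB_pos h hl
      have h3 : (if b = true then 1 else 0) + 2 * valB l = Nat.bit b (valB l) := by
        cases b <;> (simp [Nat.bit]; try omega)
      rw [h3, Nat.bits_append_bit _ _ (by omega), h1]

theorem bits_ne_nil : ∀ n : ℕ, n ≠ 0 → n.bits ≠ [] := by
  intro n
  induction n using Nat.binaryRec' with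
  | zero => intro h; exact absurd rfl h
  | bit b n h _ =>
    intro _
    rw [Nat.bits_append_bit _ _ h]
    simp

theorem canonB_bits : ∀ n : ℕ, canonB n.bits = true := by
  intro n
  induction n using Nat.binaryRec' with
  | zero => simp [canonB]
  | bit b n h ih =>
    rw [Nat.bits_append_bit _ _ h]
    by_cases hn : n = 0
    · subst hn
      rw [h rfl]
      simp [canonB]
    · rw [canonB_cons (bits_ne_nil n hn)]
      exact ih

theorem canonP_raw (p : ℤ × ℕ) : canonP (rawPair p) = true := by
  unfold canonP rawPair
  simp only [canonB_bits, Bool.and_self, Bool.true_and, Bool.not_eq_true', Bool.and_eq_false_iff,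
    decide_eq_false_iff_not]
  by_cases h : p.1 < 0
  · right
    have := bits_ne_nil p.1.natAbs (by omega)
    cases hb : p.1.natAbs.bits with
    | nil => exact absurd hb this
    | cons a t => rfl
  · left
    exact h

theorem raw_unraw {p : RPair} (h : canonP p = true) : rawPair (unrawPair p) = p := by
  obtain ⟨⟨sg, c⟩, k⟩ := p
  unfold canonP at h
  simp only [Bool.and_eq_true] at h
  obtain ⟨⟨hc, hk⟩, hs⟩ := h
  unfold rawPair unrawPair
  cases sg with
  | false =>
    have h1 : ¬ ((valB c : ℤ) < 0) := by omega
    simp [bits_valB hc, bits_valB hk]
  | true =>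
    have hne : c ≠ [] := by
      rintro rfl
      simp at hs
    have h1 := valB_pos hc hne
    simp [bits_valB hc, bits_valB hk, h1]

end Raw

open Raw

theorem stRaw : StRaw := by
  refine ⟨?_, ?_, ?_⟩
  · intro A
    have e1 : ∀ e : List (ℤ × ℕ), codeREntry (e.map rawPair) = codeEntry e := by
      intro e
      unfold codeREntry codeEntry
      rw [List.flatMap_map]
      congr 1
      exact List.flatMap_congr fun p _ => codeRPair_raw p
    have e2 : ∀ r : List (List (ℤ × ℕ)), codeRRow (r.map fun e => e.map rawPair) = codeRow r := by
      intro r
      unfold codeRRow codeRow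
      rw [List.flatMap_map]
      congr 1
      exact List.flatMap_congr fun e _ => e1 e
    unfold codeR raw code
    rw [List.flatMap_map]
    exact List.flatMap_congr fun r _ => e2 r
  · intro A
    unfold canon raw
    simp only [List.all_map, List.all_eq_true, Function.comp_apply]
    intro r _ e _ p _
    exact canonP_raw p
  · intro A hA
    unfold canon at hA
    simp only [List.all_eq_true] at hA
    unfold raw unraw
    rw [List.map_map]
    conv_rhs => rw [← List.map_id A]
    refine List.map_congr_left fun r hr => ?_
    simp only [Function.comp_apply, id, List.map_map]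
    conv_rhs => rw [← List.map_id r]
    refine List.map_congr_left fun e he => ?_
    simp only [Function.comp_apply, id, List.map_map]
    conv_rhs => rw [← List.map_id e]
    refine List.map_congr_left fun p hp => ?_
    exact raw_unraw (hA r hr e he p hp)

end Pool.Agent.Lib.MP_64d474_lc.ST
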