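import Pool.Agent.Lib.MP_64d474_lc.ST.Stmts

/-!
# The side of the grid
-/

set_option autoImplicit false

namespace Pool.Agent.Lib.MP_64d474_lc.ST

namespace Sideaux

theorem head_least {p : ℕ → Bool} {n x : ℕ} {t : List ℕ} (h : (List.range n).filter p = x :: t) :
    p x = true ∧ x < n ∧ ∀ y, y < n → p y = true → x ≤ y := by
  have hx : x ∈ (List.range n).filter p := by rw [h]; exact List.mem_cons_self
  rw [List.mem_filter, List.mem_range] at hx
  refine ⟨hx.2, hx.1, fun y hy hpy => ?_⟩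
  have hy' : y ∈ (List.range n).filter p := by
    rw [List.mem_filter, List.mem_range]
    exact ⟨hy, hpy⟩
  have hs : ((List.range n).filter p).Pairwise (· < ·) := List.pairwise_lt_range.filter p
  rw [h] at hy' hs
  rcases List.mem_cons.1 hy' with h1 | h1
  · exact h1.ge
  · exact (List.rel_of_pairwise_cons hs h1).le

end Sideaux

theorem stSide : StSide := by
  intro s
  have hq : ∀ R : ℕ, (decide (1 ≤ R) && decide (s ≤ R * (R * R))) = true ↔ 1 ≤ R ∧ s ≤ R ^ 3 := by
    intro R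
    rw [Bool.and_eq_true, decide_eq_true_iff, decide_eq_true_iff]
    have : R ^ 3 = R * (R * R) := by ring
    rw [this]
  have hs1 : (1 : ℕ) ≤ s + 1 ∧ s ≤ (s + 1) ^ 3 := by
    refine ⟨by omega, ?_⟩
    have h : s + 1 ≤ (s + 1) ^ 3 := Nat.le_self_pow (by norm_num) _
    omega
  unfold sideC
  rcases hl : (List.range (s + 2)).filter fun R => decide (1 ≤ R) && decide (s ≤ R * (R * R))
    with _ | ⟨x, t⟩
  · exfalso
    have h1 : s + 1 ∈ (List.range (s + 2)).filter fun R =>
        decide (1 ≤ R) && decide (s ≤ R * (R * R)) := by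
      rw [List.mem_filter, List.mem_range]
      exact ⟨by omega, (hq _).2 hs1⟩
    rw [hl] at h1
    exact absurd h1 List.not_mem_nil
  · obtain ⟨h1, h2, h3⟩ := Sideaux.head_least hl
    rw [hq] at h1
    change 1 ≤ x ∧ s ≤ x ^ 3 ∧ x ≤ s + 1 ∧ ∀ R, 1 ≤ R → s ≤ R ^ 3 → x ≤ R
    refine ⟨h1.1, h1.2, by omega, fun R hR1 hR2 => ?_⟩
    rcases lt_or_ge R (s + 2) with hR | hR
    · exact h3 R hR ((hq R).2 ⟨hR1, hR2⟩)
    · omega

end Pool.Agent.Lib.MP_64d474_lc.ST
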