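import Pool.Agent.Lib.MP_64d474_lc.ST.Stmts

/-!
# Sizes of the parts of a symbolic matrix
-/

set_option autoImplicit false

namespace Pool.Agent.Lib.MP_64d474_lc.ST

namespace SizesAux

theorem length_le_flatMap {α β : Type} {l : List α} {f : α → List β} {x : α} (hx : x ∈ l) :
    (f x).length ≤ (l.flatMap f).length := by
  induction l with
  | nil => exact absurd hx (by simp)
  | cons y l ih =>
    rw [List.flatMap_cons, List.length_append]
    rcases List.mem_cons.1 hx with rfl | h
    · omega
    · have := ih h
      omega

theorem terms_append (a b : List Letter) : terms (a ++ b) = terms a + terms b := by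
  rw [terms, terms, terms, cnt, cnt, cnt, List.filter_append, List.length_append]

theorem terms_le (a : List Letter) : terms a ≤ a.length := List.length_filter_le _ _

theorem terms_nil : terms [] = 0 := rfl

theorem terms_flatMap {α : Type} (l : List α) (f : α → List Letter) :
    terms (l.flatMap f) = (l.map fun x => terms (f x)).sum := by
  induction l with
  | nil => rfl
  | cons x l ih => rw [List.flatMap_cons, terms_append, ih, List.map_cons, List.sum_cons]

theorem terms_bin (n : ℕ) : terms (bin n) = 0 := by
  rw [bin]
  generalize n.bits = l
  induction l with
  | nil => rfl
  | cons b l ih =>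
    rw [List.map_cons]
    have h := terms_append [if b then Letter.one else Letter.zero]
      (l.map fun b => if b then Letter.one else Letter.zero)
    rw [ih] at h
    refine h.trans ?_
    cases b <;> rfl

theorem terms_codePair (p : ℤ × ℕ) : terms (codePair p) = 1 := by
  rw [codePair, terms_append, terms_append, terms_append, terms_append, terms_bin, terms_bin]
  split_ifs <;> rfl

theorem terms_codeEntry (e : List (ℤ × ℕ)) : terms (codeEntry e) = e.length := by
  rw [codeEntry, terms_append, terms_flatMap]
  simp only [terms_codePair]
  simp
  rfl

theorem terms_codeRow (r : List (List (ℤ × ℕ))) :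
    terms (codeRow r) = (r.map List.length).sum := by
  rw [codeRow, terms_append, terms_flatMap]
  simp only [terms_codeEntry]
  exact Nat.add_zero _

theorem terms_code (A : SMat) : terms (code A) = (varsN A).length := by
  rw [code, terms_flatMap, varsN, List.length_flatMap]
  congr 1
  refine List.map_congr_left fun r _ => ?_
  rw [terms_codeRow, List.length_flatMap]
  simp only [List.length_map]

theorem length_code (A : SMat) : A.length ≤ (code A).length := by
  rw [code]
  induction A with
  | nil => exact Nat.zero_le _
  | cons r A ih =>
    rw [List.flatMap_cons, List.length_append, List.length_cons]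
    have : 1 ≤ (codeRow r).length := by
      rw [codeRow, List.length_append, List.length_singleton]
      omega
    omega

theorem length_entry {A : SMat} {r : List (List (ℤ × ℕ))} (hr : r ∈ A)
    {e : List (ℤ × ℕ)} (he : e ∈ r) : (codeEntry e).length ≤ (code A).length := by
  have h1 : (codeEntry e).length ≤ (codeRow r).length := by
    rw [codeRow, List.length_append]
    have := length_le_flatMap (f := codeEntry) he
    omega
  exact h1.trans (length_le_flatMap (f := codeRow) hr)

theorem length_pair {e : List (ℤ × ℕ)} {p : ℤ × ℕ} (hp : p ∈ e) :
    p.1.natAbs.size ≤ (codeEntry e).length := by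
  have h1 : p.1.natAbs.size ≤ (codePair p).length := by
    rw [codePair]
    simp only [List.length_append, bin, List.length_map, Nat.size_eq_bits_len]
    omega
  have h2 := length_le_flatMap (f := codePair) hp
  rw [codeEntry, List.length_append]
  omega

end SizesAux

open SizesAux in
theorem stSizes : StSizes := by
  intro A
  refine ⟨terms_code A, ?_, length_code A, ?_, ?_, ?_⟩
  · simp only [vars, varsN, raw, List.flatMap_map, List.map_flatMap, List.map_map]
    rfl
  · rw [← terms_code]
    exact terms_le _
  · intro r hr e he
    rw [← terms_codeEntry]
    exact (terms_le _).trans (length_entry hr he)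
  · intro r hr e he p hp
    refine (Nat.lt_size_self _).trans_le (Nat.pow_le_pow_right (by norm_num) ?_)
    exact (length_pair hp).trans (length_entry hr he)

end Pool.Agent.Lib.MP_64d474_lc.ST
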