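import Pool.Agent.Lib.MP_64d474_lc.ST.Stmts

/-!
# The list of all digit vectors
-/

set_option autoImplicit false

namespace Pool.Agent.Lib.MP_64d474_lc.ST

namespace VecsAux

theorem vecs_zero (D : ℕ) : vecs D 0 = [[]] := rfl

theorem vecs_succ (D T : ℕ) :
    vecs D (T + 1) = (vecs D T).flatMap fun l => (List.range (D + 1)).map fun x => x :: l := by
  unfold vecs
  rw [Function.iterate_succ_apply']

end VecsAux

open VecsAux

theorem stVecs : StVecs := by
  intro D T
  induction T with
  | zero =>
    intro d
    rw [vecs_zero, List.mem_singleton, List.length_eq_zero_iff]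
    constructor
    · rintro rfl
      exact ⟨rfl, fun x hx => absurd hx List.not_mem_nil⟩
    · exact fun h => h.1
  | succ T ih =>
    intro d
    rw [vecs_succ, List.mem_flatMap]
    constructor
    · rintro ⟨l, hl, hd⟩
      obtain ⟨x, hx, rfl⟩ := List.mem_map.mp hd
      obtain ⟨h1, h2⟩ := (ih l).mp hl
      refine ⟨by rw [List.length_cons, h1], fun y hy => ?_⟩
      rcases List.mem_cons.mp hy with rfl | hy
      · exact Nat.lt_succ_iff.mp (List.mem_range.mp hx)
      · exact h2 y hy
    · rintro ⟨h1, h2⟩
      cases d with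
      | nil => exact absurd h1 (Nat.succ_ne_zero T).symm
      | cons x l =>
        refine ⟨l, (ih l).mpr ⟨Nat.succ_injective h1, fun y hy => h2 y (List.mem_cons_of_mem x hy)⟩,
          List.mem_map.mpr ⟨x, List.mem_range.mpr (Nat.lt_succ_iff.mpr
            (h2 x List.mem_cons_self)), rfl⟩⟩

end Pool.Agent.Lib.MP_64d474_lc.ST
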