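import Pool.Agent.Lib.MP_64d474_lc.ST.Stmts

/-!
# The value of a variable modulo a number (module Xmod)
-/

set_option autoImplicit false

namespace Pool.Agent.Lib.MP_64d474_lc.ST

namespace Xmod

theorem bits_inj : Function.Injective Nat.bits := by
  intro m n h
  have h2 : Nat.digits 2 m = Nat.digits 2 n := by
    rw [Nat.digits_two_eq_bits, Nat.digits_two_eq_bits, h]
  exact Nat.digits_inj_iff.mp h2

variable {α β : Type} [DecidableEq α] [DecidableEq β]

theorem cnt_map {f : α → β} (hf : Function.Injective f) (V : List α) (v : α) :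
    cnt (V.map f) (f v) = cnt V v := by
  unfold cnt
  rw [List.filter_map, List.length_map]
  congr 1
  apply List.filter_congr
  intro u _
  simp [hf.eq_iff]

theorem idxOf_map {f : α → β} (hf : Function.Injective f) (V : List α) (v : α) :
    (V.map f).idxOf (f v) = V.idxOf v := by
  induction V with
  | nil => simp
  | cons a l ih =>
    rw [List.map_cons, List.idxOf_cons, List.idxOf_cons, ih]
    by_cases h : a = v
    · subst h; simp
    · have h2 : f a ≠ f v := fun h3 => h (hf h3)
      rw [beq_false_of_ne h, beq_false_of_ne h2]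

theorem offs_map {f : α → β} (hf : Function.Injective f) (V : List α) (v : α) :
    offs (V.map f) (f v) = offs V v := by
  unfold offs
  rw [List.filter_map, List.length_map]
  congr 1
  apply List.filter_congr
  intro u _
  show decide ((V.map f).idxOf (f u) < (V.map f).idxOf (f v)) = _
  rw [idxOf_map hf, idxOf_map hf]

theorem dbl_cast (p k y : ℕ) : ((dbl p k y : ℕ) : ZMod p) = ((2 ^ k * y : ℕ) : ZMod p) := by
  unfold dbl
  induction k with
  | zero => simp
  | succ k ih =>
    rw [Function.iterate_succ_apply', ZMod.natCast_mod, Nat.cast_mul, ih, ← Nat.cast_mul]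
    congr 1
    ring

theorem foldr_cast (p b c : ℕ) (h : ((b : ℕ) : ZMod p) = (c : ZMod p)) (l : List ℕ) :
    ((l.foldr (fun z a => (z + a) * b % p) 0 : ℕ) : ZMod p) =
      ((l.foldr (fun z a => (z + a) * c) 0 : ℕ) : ZMod p) := by
  induction l with
  | nil => simp
  | cons x l ih =>
    rw [List.foldr_cons, List.foldr_cons, ZMod.natCast_mod]
    push_cast at ih ⊢
    rw [ih, h]

end Xmod

open Xmod in
theorem stXmod : StXmod := by
  intro V p R d v _
  unfold xmod xval
  rw [cnt_map bits_inj, offs_map bits_inj, List.length_map]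
  split_ifs with h
  · exact foldr_cast p _ _ (dbl_cast p _ _) _
  · exact ZMod.natCast_mod _ _

end Pool.Agent.Lib.MP_64d474_lc.ST
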