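import Pool.Agent.Lib.MP_64d474_lc.ST.Stmts

/-!
# Module Zip: `zipWith` is a polynomial time function
-/

set_option autoImplicit false

open Finset Pool.Agent.Lib.PT

namespace Pool.Agent.Lib.MP_64d474_lc.ST

namespace ZipAux

variable {α β γ : Type} [Enc α] [Enc β] [Enc γ]

/-- One step: the rest of the second list and the list of the pairs in reverse order. -/
def step (s : List γ × List (β × γ)) (x : β) : List γ × List (β × γ) :=
  match s.1 with
  | [] => s
  | y :: t => (t, (x, y) :: s.2)

omit [Enc β] [Enc γ] in
theorem foldl_step (l : List β) (t : List γ) (acc : List (β × γ)) :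
    l.foldl step (t, acc) = (t.drop l.length, (l.zip t).reverse ++ acc) := by
  induction l generalizing t acc with
  | nil => simp
  | cons x l ih =>
    cases t with
    | nil =>
      rw [List.foldl_cons]
      have h : step (([] : List γ), acc) x = ([], acc) := rfl
      rw [h, ih]
      simp
    | cons y t =>
      rw [List.foldl_cons]
      have h : step (y :: t, acc) x = (t, (x, y) :: acc) := rfl
      rw [h, ih]
      simp

theorem sz_zip (l : List β) (t : List γ) : sz (l.zip t) ≤ sz l + sz t := by
  induction l generalizing t with
  | nil =>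
    rw [List.zip_nil_left, sz_nil, sz_nil]
    omega
  | cons x l ih =>
    cases t with
    | nil =>
      rw [List.zip_nil_right, sz_nil, sz_nil]
      omega
    | cons y t =>
      have h := ih t
      rw [List.zip_cons_cons, sz_cons, sz_cons, sz_cons, sz_mk]
      omega

theorem sz_drop (n : ℕ) (t : List γ) : sz (t.drop n) ≤ sz t := by
  have h1 := sz_append (t.take n) (t.drop n)
  rw [List.take_append_drop] at h1
  have h2 := sz_pos (t.take n)
  omega

theorem ptime_zip {f : α → List β} {g : α → List γ} (hf : PTime f) (hg : PTime g) :
    PTime fun a => (f a).zip (g a) := by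
  have h1 : PTime fun p : α × (List γ × List (β × γ)) × β => step p.2.1 p.2.2 := by
    refine PTime.listCases (l := fun p : α × (List γ × List (β × γ)) × β => p.2.1.1)
      (f := fun p => p.2.1) (g := fun q => (q.2.2, (q.1.2.2, q.2.1) :: q.1.2.1.2))
      (by fun_prop) (by fun_prop) (by fun_prop) (fun p h => ?_) (fun p y t h => ?_)
    · unfold step
      rw [h]
    · unfold step
      rw [h]
  have hB : PB fun a => sz (g a) + (sz (f a) + sz (g a)) + 1 :=
    (hg.sz_le.add (hf.sz_le.add hg.sz_le)).add (PB.const 1)
  have h2 := PTime.foldl (l := f) (s := fun a => (g a, ([] : List (β × γ))))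
    (f := fun _ s x => step s x) hf (by fun_prop) h1 hB (fun a l₁ l₂ e => by
      rw [foldl_step, List.append_nil, sz_mk, sz_reverse]
      have a1 := sz_drop l₁.length (g a)
      have a2 := sz_zip l₁ (g a)
      have a3 : sz l₁ ≤ sz (f a) := by
        have h5 := sz_append l₁ l₂
        have h6 := sz_pos l₂
        rw [← e] at h5
        omega
      omega)
  refine (h2.snd'.reverse).of_eq fun a => ?_
  rw [foldl_step, List.append_nil, List.reverse_reverse]

omit [Enc β] [Enc γ] in
theorem zipWith_eq {δ : Type} (h : β → γ → δ) (l : List β) (t : List γ) :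
    (l.zip t).map (fun p => h p.1 p.2) = List.zipWith h l t := by
  induction l generalizing t with
  | nil => rfl
  | cons x l ih =>
    cases t with
    | nil => rfl
    | cons y t =>
      rw [List.zip_cons_cons, List.map_cons, ih, List.zipWith_cons_cons]

end ZipAux

open ZipAux in
theorem stZip : StZip := by
  intro α β γ δ _ _ _ _ f g h hf hg hh
  refine (PTime.map (l := fun a => (f a).zip (g a)) (f := fun a p => h a p.1 p.2)
    (ptime_zip hf hg) hh).of_eq fun a => ?_
  exact zipWith_eq (h a) (f a) (g a)

end Pool.Agent.Lib.MP_64d474_lc.ST
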