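import Pool.Agent.Lib.MP_64d474_lc.ST.Mach
import Pool.Agent.Lib.MP_64d474_lc.ST.Parse
import Pool.Agent.Lib.MP_64d474_lc.ST.Raw
import Pool.Agent.Lib.MP_64d474_lc.ST.Sizes
import Pool.Agent.Lib.MP_64d474_lc.ST.Prime
import Pool.Agent.Lib.MP_64d474_lc.ST.IsPrime
import Pool.Agent.Lib.MP_64d474_lc.ST.Elim
import Pool.Agent.Lib.MP_64d474_lc.ST.Xmod
import Pool.Agent.Lib.MP_64d474_lc.ST.Mod
import Pool.Agent.Lib.MP_64d474_lc.ST.Bound
import Pool.Agent.Lib.MP_64d474_lc.ST.Side
import Pool.Agent.Lib.MP_64d474_lc.ST.Vecs
import Pool.Agent.Lib.MP_64d474_lc.ST.Eval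
import Pool.Agent.Lib.MP_64d474_lc.ST.Gen
import Pool.Agent.Lib.MP_64d474_lc.ST.Rank
import Pool.Agent.Lib.MP_64d474_lc.ST.Pts
import Pool.Agent.Lib.MP_64d474_lc.ST.Div
import Pool.Agent.Lib.MP_64d474_lc.ST.Zip
import Pool.Agent.Lib.MP_64d474_lc.ST.PTParse
import Pool.Agent.Lib.MP_64d474_lc.ST.PTCode
import Pool.Agent.Lib.MP_64d474_lc.ST.PTWell
import Pool.Agent.Lib.MP_64d474_lc.ST.PTX
import Pool.Agent.Lib.MP_64d474_lc.ST.PTMat
import Pool.Agent.Lib.MP_64d474_lc.ST.PTElim
import Pool.Agent.Lib.MP_64d474_lc.ST.PTPrime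
import Pool.Agent.Lib.MP_64d474_lc.ST.PTSide
import Pool.Agent.Lib.MP_64d474_lc.ST.PTGood
import Pool.Agent.Lib.MP_64d474_lc.ST.PTDecide
import Pool.Agent.Lib.MP_64d474_lc.ST.Loop
import Pool.Agent.Lib.MP_64d474_lc.ST.Bd

/-!
# Symbolic determinant identity testing in deterministic subexponential time

The definitions of the statement are in `Pool/Agent/Lib/MP_64d474_lc/ST/Defs.lean`.

A symbolic matrix with `s` pairs (coefficient, variable index) is tested at the points of an
explicit set of `(s + 2) ^ O(s ^ (2 / 3))` points that depends only on the number of occurrences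
of the variables (`ST/Alg.lean`, `xval`): the variables are divided into `O(s ^ (2 / 3))` blocks
with `O(s ^ (1 / 3))` occurrences (and single variables with more occurrences); all blocks use the
same `O(s ^ (2 / 3))` sources `z`, every block has one parameter `y` of its own, the values of the
variables in the block are `∑ z_j (2 ^ c y) ^ j` for the different positions `c` in the block
(`SubExp/Hybrid.lean`, `SubExp/Grid.lean`). The determinants at the points are tested modulo all
primes up to a polynomial bound.
-/

namespace Pool.Agent.Lib.MP_64d474_lc.ST.Occ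

open Pool.Agent.Lib.MP_64d474_lc.ST

open Classical in
/-- **Symbolic determinant identity testing in deterministic time `2 ^ O(L ^ (2 / 3) log L)`.**
There are a constant `c` and a Turing machine that decides for every word `w` whether `w` is the
word of a square symbolic matrix with nonzero determinant, within
`(L + 2) ^ c * (s + 2) ^ (c * R ^ 2)` steps, where `L` is the length of `w`, `s` the number of
pairs in `w` and `R ≥ 1` any number with `s ≤ R ^ 3`. -/
theorem result : ∃ (c : ℕ) (M : Turing.TM2ComputableAux Letter Bool),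
    ∀ (w : List Letter) (R : ℕ), 1 ≤ R → w.count .pair ≤ R ^ 3 →
      Nonempty (Turing.TM2OutputsInTime M.tm (w.map M.inputAlphabet.invFun)
        (some ([decide (∃ A : SMat, code A = w ∧ Nonsingular A)].map M.outputAlphabet.invFun))
        ((w.length + 2) ^ c * (w.count .pair + 2) ^ (c * R ^ 2))) := by
  have hmat : StPTMat := stPTMat (stPTX stDiv)
  have hgood : StPTGood := stPTGood hmat (stPTElim stZip) stPTPrime
  have hdec : StPTDecide := stPTDecide (stPTWell stPTParse stPTCode) hgood stPTSide stPTParse
  exact main stSide hdec (stLoop stSide stPTSide stDiv) stBd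
    (accept_iff stParse stRaw stSizes stPrime stIsPrime stElim (stMod stXmod) (stBound stSizes)
      stSide stEval (stHit stGen stRank stPts))

end Pool.Agent.Lib.MP_64d474_lc.ST.Occ
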