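import Pool.Agent.Lib.MP_64d474_lc.ST.Stmts

/-!
# The primality test is computable in polynomial time (numbers in unary)
-/

set_option autoImplicit false

open Pool.Agent.Lib.PT

namespace Pool.Agent.Lib.MP_64d474_lc.ST

theorem stPTPrime : StPTPrime := by
  have h1 : PTime fun q : ℕ × ℕ => decide (q.2 < 2) || !decide (q.1 % q.2 = 0) := by
    fun_prop
  have h2 : PTime fun p : ℕ => (List.range p).all fun d => decide (d < 2) || !decide (p % d = 0) :=
    PTime.all (f := fun (p : ℕ) (d : ℕ) => decide (d < 2) || !decide (p % d = 0))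
      (by fun_prop) h1
  have h3 : PTime fun p : ℕ => decide (2 ≤ p) := by fun_prop
  exact h3.and h2

end Pool.Agent.Lib.MP_64d474_lc.ST
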