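import Pool.Agent.Lib.MP_64d474_lc.ST.Alg
import Pool.Agent.Lib.MP_64d474_lc.SubExp.Defs
import Pool.Agent.Lib.PTime.Time
import Pool.Agent.Lib.PTime.Fin

/-!
# Statements of the modules of the Turing machine theorem
-/

set_option autoImplicit false

open Finset Pool.Agent.Lib.PT
open Pool.Agent.Lib.MP_64d474_lc.SubExp (Par bd pt off nsrc nblk side)

namespace Pool.Agent.Lib.MP_64d474_lc.ST

instance : Enc Letter := ⟨fun a => tr (match a with
  | .zero => 0 | .one => 1 | .minus => 2 | .comma => 3 | .pair => 4 | .entry => 5 | .row => 6 : ℕ)⟩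

instance : EncInj Letter := ⟨fun a b h => by
  have h' := EncInj.inj (α := ℕ) h
  cases a <;> cases b <;> first | rfl | (exact absurd h' (by decide))⟩

/-! ### Words -/

def StParse : Prop := ∀ A : RMat, parse (codeR A) = A

def StRaw : Prop := (∀ A : SMat, codeR (raw A) = code A) ∧ (∀ A : SMat, canon (raw A) = true) ∧
  ∀ A : RMat, canon A = true → raw (unraw A) = A

def StSizes : Prop := ∀ A : SMat,
  terms (code A) = (varsN A).length ∧ vars (raw A) = (varsN A).map Nat.bits ∧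
  A.length ≤ (code A).length ∧ (varsN A).length ≤ (code A).length ∧
  (∀ r ∈ A, ∀ e ∈ r, e.length ≤ (code A).length) ∧
  ∀ r ∈ A, ∀ e ∈ r, ∀ p ∈ e, p.1.natAbs < 2 ^ (code A).length

/-! ### Arithmetic modulo primes -/

def StPrime : Prop := ∀ (K : ℕ) (D : ℤ), D ≠ 0 → D.natAbs < 2 ^ K →
  ∃ p ≤ 1024 * ((K + 1) * (K + 1)), p.Prime ∧ ¬ (p : ℤ) ∣ D

def StIsPrime : Prop := ∀ p : ℕ, isPrime p = true ↔ p.Prime

def StElim : Prop := ∀ (p : ℕ) [Fact p.Prime] (M : List (List ℕ)),
  (∀ r ∈ M, r.length = M.length) → (elimOK p M = true ↔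
    (Matrix.of fun i j : Fin M.length => (((M.getD i []).getD j 0 : ℕ) : ZMod p)).det ≠ 0)

def StXmod : Prop := ∀ (V : List ℕ) (p R : ℕ) (d : List ℕ) (v : ℕ), 0 < p →
  ((xmod p (V.map Nat.bits) R d v.bits : ℕ) : ZMod p) = ((xval V R d v : ℕ) : ZMod p)

def StMod : Prop := ∀ (A : SMat) (p R : ℕ) (d : List ℕ), 0 < p →
  (∀ r ∈ A, r.length = A.length) → ∀ i j : Fin A.length,
  ((((matmod p R d (raw A)).getD i []).getD j 0 : ℕ) : ZMod p) =
    ((evalM A (pointN A R d) i j : ℤ) : ZMod p)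

def StBound : Prop := ∀ (A : SMat) (R : ℕ) (d : List ℕ), (∀ r ∈ A, r.length = A.length) →
  1 ≤ R → R ≤ (varsN A).length + 1 →
  d ∈ vecs (dmax (varsN A).length R) (digs (varsN A).length R) →
  ((evalM A (pointN A R d) : Matrix _ _ ℤ).det).natAbs < 2 ^ kbound (code A).length

/-! ### The test points -/

def StSide : Prop := ∀ s : ℕ, 1 ≤ sideC s ∧ s ≤ sideC s ^ 3 ∧ sideC s ≤ s + 1 ∧
  ∀ R, 1 ≤ R → s ≤ R ^ 3 → sideC s ≤ R

def StVecs : Prop := ∀ (D T : ℕ) (d : List ℕ), d ∈ vecs D T ↔ d.length = T ∧ ∀ x ∈ d, x ≤ D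

def StEval : Prop := ∀ (A : SMat) (x : ℕ → ℤ),
  MvPolynomial.eval x (toMat A).det = (evalM A x).det

def StGen : Prop := ∀ A : SMat, (toMat A).det ≠ 0 → ∃ x : ℕ → ℚ, (evalM A x).det ≠ 0

/-- the coefficient matrix of the variable `k` -/
def coefMat (A : SMat) (k : ℕ) : Matrix (Fin A.length) (Fin A.length) ℚ :=
  fun i j => (((A.getD i []).getD j []).map fun p => if p.2 = k then (p.1 : ℚ) else 0).sum

/-- the multiplicities: the number of occurrences for the first occurrence of a member, `0` for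
the other ones -/
def mults {β : Type} [DecidableEq β] (V : List β) (j : Fin V.length) : ℕ :=
  if V.idxOf (V.get j) = j then cnt V (V.get j) else 0

/-- the matrices: the coefficient matrix for the first occurrence of a variable -/
def mats (A : SMat) (j : Fin (varsN A).length) : Matrix (Fin A.length) (Fin A.length) ℚ :=
  if (varsN A).idxOf ((varsN A).get j) = j then coefMat A ((varsN A).get j) else 0

def StRank : Prop := ∀ A : SMat, (∀ r ∈ A, r.length = A.length) →
  (∀ j, (mats A j).rank ≤ mults (varsN A) j) ∧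
  ∀ x : ℕ → ℚ, evalM A x = ∑ j, x ((varsN A).get j) • mats A j

def StPts : Prop := ∀ (V : List ℕ) (R : ℕ), 1 ≤ R → (∑ j, mults V j = V.length) ∧
  ∀ v : Par (∑ j, mults V j) R → ℕ, (∀ c, v c ≤ bd (∑ j, mults V j) R c) →
    ∃ d ∈ vecs (dmax V.length R) (digs V.length R), ∀ j : Fin V.length,
      V.idxOf (V.get j) = j → pt (mults V) R v j = xval V R d (V.get j)

def StHit : Prop := ∀ (A : SMat) (R : ℕ), (∀ r ∈ A, r.length = A.length) → 1 ≤ R →
  (toMat A).det ≠ 0 → ∃ d ∈ vecs (dmax (varsN A).length R) (digs (varsN A).length R),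
    (evalM A (pointN A R d) : Matrix _ _ ℤ).det ≠ 0

/-! ### Polynomial time -/

def StDiv : Prop := ∀ (α : Type) [Enc α] (f g : α → ℕ), PTime f → PTime g →
  PTime fun a => f a / g a

def StZip : Prop := ∀ (α β γ δ : Type) [Enc α] [Enc β] [Enc γ] [Enc δ] (f : α → List β)
  (g : α → List γ) (h : α → β → γ → δ), PTime f → PTime g →
  (PTime fun q : α × β × γ => h q.1 q.2.1 q.2.2) → PTime fun a => List.zipWith (h a) (f a) (g a)

def StPTParse : Prop := PTime fun w : List Letter => parse w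

def StPTCode : Prop := PTime fun A : RMat => codeR A

def StPTWell : Prop := PTime fun w : List Letter => wellformed w

def StPTX : Prop := PTime fun q : ℕ × List (List Bool) × ℕ × List ℕ × List Bool =>
  xmod (q.1 + 1) q.2.1 q.2.2.1 q.2.2.2.1 q.2.2.2.2

def StPTMat : Prop := PTime fun q : ℕ × ℕ × List ℕ × RMat =>
  matmod (q.1 + 1) q.2.1 q.2.2.1 q.2.2.2

def StPTElim : Prop := PTime fun q : ℕ × List (List ℕ) => elimOK (q.1 + 1) q.2

def StPTPrime : Prop := PTime fun p : ℕ => isPrime p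

def StPTSide : Prop := PTime fun s : ℕ => sideC s

def StPTGood : Prop := PTime fun q : RMat × ℕ × ℕ × List ℕ => good q.1 q.2.1 q.2.2.1 q.2.2.2

def StPTDecide : Prop := PTime fun q : List Letter × List (List ℕ) => decideWith q.1 q.2

/-- the bound of the running time -/
def tbound (c : ℕ) (w : List Letter) : ℕ :=
  (w.length + 2) ^ c * (terms w + 2) ^ (c * sideC (terms w) ^ 2)

def StLoop : Prop := ∃ c : ℕ, (∀ w : List Letter, sz w ≤ tbound c w) ∧
  TB (tbound c) fun w : List Letter => (w, allDigits w)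

def StBd : Prop := ∀ (p : Polynomial ℕ) (c : ℕ), ∃ c', ∀ w : List Letter,
  p.eval (tbound c w) ≤ tbound c' w

end Pool.Agent.Lib.MP_64d474_lc.ST
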